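import Mathlib

/-!
# The product of shifted sines
-/

set_option autoImplicit false

namespace Pool.Agent.Q210.KN

open Finset Polynomial

lemma two_sin_eq (θ : ℂ) :
    2 * Complex.sin θ = Complex.I * Complex.exp (-(θ * Complex.I)) * (1 - Complex.exp (2 * θ * Complex.I)) := by
  have h1 : Complex.exp (2 * θ * Complex.I) = Complex.exp (θ * Complex.I) * Complex.exp (θ * Complex.I) := by
    rw [← Complex.exp_add]; congr 1; ring
  have h2 : Complex.exp (-(θ * Complex.I)) * Complex.exp (θ * Complex.I) = 1 := by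
    rw [← Complex.exp_add]; simp
  rw [h1]
  have h3 := Complex.two_sin θ
  rw [h3, neg_mul]
  linear_combination (Complex.I * Complex.exp (θ * Complex.I)) * h2

lemma prod_one_sub (N : ℕ) (hN : 0 < N) (q : ℂ) :
    ∏ k ∈ range N, (1 - Complex.exp (2 * Real.pi * Complex.I / N) ^ k * q) = 1 - q ^ N := by
  have h := X_pow_sub_C_eq_prod (Complex.isPrimitiveRoot_exp N hN.ne') hN (α := q) (a := q ^ N) rfl
  have h2 := congrArg (Polynomial.eval 1) h
  rw [eval_prod] at h2
  simp only [eval_sub, eval_pow, eval_X, eval_C, one_pow] at h2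
  exact h2.symm

theorem prod_two_sin (N : ℕ) (hN : 0 < N) (x : ℂ) :
    ∏ k ∈ range N, (2 * Complex.sin (Real.pi * (x + k) / N)) = 2 * Complex.sin (Real.pi * x) := by
  have hNc : (N : ℂ) ≠ 0 := by exact_mod_cast hN.ne'
  have h1 : ∀ k ∈ range N, (2 * Complex.sin (Real.pi * (x + k) / N)) =
      (Complex.I * Complex.exp (-(Real.pi * (x + k) / N * Complex.I))) *
        (1 - Complex.exp (2 * Real.pi * Complex.I / N) ^ k * Complex.exp (2 * Real.pi * x * Complex.I / N)) := by
    intro k _
    rw [two_sin_eq]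
    congr 2
    rw [← Complex.exp_nat_mul, ← Complex.exp_add]
    congr 1
    field_simp
    ring
  rw [prod_congr rfl h1, prod_mul_distrib, prod_one_sub N hN, prod_mul_distrib, prod_const, card_range,
    ← Complex.exp_sum, two_sin_eq, ← Complex.exp_nat_mul]
  have h2 : (N : ℂ) * (2 * Real.pi * x * Complex.I / N) = 2 * (Real.pi * x) * Complex.I := by
    field_simp
  rw [h2]
  congr 1
  have h3 : ∑ k ∈ range N, -(Real.pi * (x + k) / N * Complex.I) =
      -(Real.pi * x * Complex.I) + -((N - 1 : ℂ) * (Real.pi / 2 * Complex.I)) := by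
    have h4 : ∑ k ∈ range N, ((k : ℂ)) = N * (N - 1) / 2 := by
      have h5 := Finset.sum_range_id_mul_two N
      have h6 : ((∑ k ∈ range N, k : ℕ) : ℂ) * 2 = N * (N - 1) := by
        have h7 := congrArg (Nat.cast (R := ℂ)) h5
        rw [Nat.cast_mul, Nat.cast_mul, Nat.cast_sub (by omega : 1 ≤ N)] at h7
        simpa using h7
      rw [Nat.cast_sum] at h6
      linear_combination h6 / 2
    have h8 : ∀ k ∈ range N, -(Real.pi * (x + k) / N * Complex.I) =
        -(Real.pi * x / N * Complex.I) + -(Real.pi / N * Complex.I) * k := fun k _ => by ring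
    rw [sum_congr rfl h8, sum_add_distrib, ← mul_sum, h4, sum_const, card_range, nsmul_eq_mul]
    field_simp
  rw [h3, Complex.exp_add]
  have h9 : Complex.I ^ N * Complex.exp (-((N - 1 : ℂ) * (Real.pi / 2 * Complex.I))) = Complex.I := by
    obtain ⟨n, rfl⟩ : ∃ n, N = n + 1 := ⟨N - 1, by omega⟩
    have e1 : ((n + 1 : ℕ) : ℂ) - 1 = n := by push_cast; ring
    rw [e1, Complex.exp_neg, Complex.exp_nat_mul, Complex.exp_pi_div_two_mul_I, pow_succ]
    have : Complex.I ^ n ≠ 0 := pow_ne_zero _ Complex.I_ne_zero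
    field_simp
  linear_combination Complex.exp (-(Real.pi * x * Complex.I)) * h9

end Pool.Agent.Q210.KN
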