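import Pool.Agent.Q99.KN.Stm1
import Pool.Agent.Q210.KN.Sin

/-!
# Basic facts on `sn` and `bc`
-/

set_option autoImplicit false

namespace Pool.Agent.Q210.KN

open Finset
open Pool.Agent.W719.BS (D D_pos D_refl)
open Pool.Agent.Q99.KN

variable {N : ℕ}

lemma sn_neg (x : ℂ) : sn N (-x) = -sn N x := by
  unfold sn
  rw [mul_neg, neg_div, Complex.sin_neg]
  ring

lemma sn_zero : sn N 0 = 0 := by
  unfold sn
  simp

lemma sn_refl (hN : 0 < N) (x : ℂ) : sn N (N - x) = sn N x := by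
  have hNc : (N : ℂ) ≠ 0 := by exact_mod_cast hN.ne'
  unfold sn
  rw [show (Real.pi : ℂ) * (N - x) / N = Real.pi - Real.pi * x / N by field_simp, Complex.sin_pi_sub]

lemma sn_add_N (hN : 0 < N) (x : ℂ) : sn N (x + N) = -sn N x := by
  have hNc : (N : ℂ) ≠ 0 := by exact_mod_cast hN.ne'
  unfold sn
  rw [show (Real.pi : ℂ) * (x + N) / N = Real.pi * x / N + Real.pi by field_simp, Complex.sin_add_pi]
  ring

/-- `2 cos (π x / N)` -/
noncomputable def cn (N : ℕ) (x : ℂ) : ℂ := 2 * Complex.cos (Real.pi * x / N)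

lemma sn_mul (x y : ℂ) : sn N x * sn N y = cn N (x - y) - cn N (x + y) := by
  unfold sn cn
  rw [show (Real.pi : ℂ) * (x - y) / N = Real.pi * x / N - Real.pi * y / N by ring,
    show (Real.pi : ℂ) * (x + y) / N = Real.pi * x / N + Real.pi * y / N by ring, Complex.cos_sub,
    Complex.cos_add]
  ring

lemma cn_neg (x : ℂ) : cn N (-x) = cn N x := by
  unfold cn
  rw [mul_neg, neg_div, Complex.cos_neg]

/-- the three term identity -/
lemma three (x y b : ℂ) : sn N x * sn N (y + b) - sn N y * sn N (x - b) = sn N b * sn N (x + y) := by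
  rw [sn_mul, sn_mul, sn_mul, show x - (y + b) = x - y - b by ring, show y - (x - b) = -(x - y - b) by ring,
    cn_neg, show b - (x + y) = -(x + y - b) by ring, cn_neg, show x + (y + b) = b + (x + y) by ring,
    show y + (x - b) = x + y - b by ring]
  ring

lemma four (n C b : ℂ) : sn N (n + 1) * sn N (n + 1 - b) =
    sn N (C + 1) * sn N (C + 1 + b) + sn N (n + C + 2) * sn N (n - C - b) := by
  rw [sn_mul, sn_mul, sn_mul, show n + 1 - (n + 1 - b) = b by ring,
    show C + 1 - (C + 1 + b) = -b by ring, cn_neg,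
    show n + C + 2 - (n - C - b) = C + 1 + (C + 1 + b) by ring,
    show n + C + 2 + (n - C - b) = n + 1 + (n + 1 - b) by ring]
  ring

lemma sn_nat_ne (k : ℕ) (h0 : 0 < k) (h : k < N) : sn N (k : ℂ) ≠ 0 := by
  unfold sn
  have hN : (0 : ℝ) < N := by exact_mod_cast (by omega : 0 < N)
  have hk : (0 : ℝ) < k := by exact_mod_cast h0
  have hkN : (k : ℝ) < N := by exact_mod_cast h
  have h1 : 0 < Real.sin (Real.pi * k / N) := by
    apply Real.sin_pos_of_pos_of_lt_pi
    · positivity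
    · rw [div_lt_iff₀ hN]
      exact mul_lt_mul_of_pos_left hkN Real.pi_pos
  have h2 : (Complex.sin (Real.pi * k / N)) = ((Real.sin (Real.pi * k / N) : ℝ) : ℂ) := by
    push_cast
    rfl
  rw [h2]
  have : ((Real.sin (Real.pi * k / N) : ℝ) : ℂ) ≠ 0 := by
    rw [Complex.ofReal_ne_zero]
    exact h1.ne'
  exact mul_ne_zero two_ne_zero this

lemma sn_succ_ne (k : ℕ) (h : k + 1 < N) : sn N ((k : ℂ) + 1) ≠ 0 := by
  have := sn_nat_ne (N := N) (k + 1) (by omega) h
  push_cast at this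
  exact this

lemma D_zero : (D N 0 : ℝ) = 1 := by
  unfold D
  simp

lemma D_succ (k : ℕ) : ((D N (k + 1) : ℝ) : ℂ) = (D N k : ℝ) * sn N ((k : ℂ) + 1) := by
  unfold D sn
  rw [prod_range_succ]
  push_cast
  rfl

lemma D_ne (k : ℕ) (h : k < N) : ((D N k : ℝ) : ℂ) ≠ 0 := by
  rw [Complex.ofReal_ne_zero]
  exact (D_pos N k h).ne'

lemma bc_zero (n : ℂ) : bc N n 0 = 1 := by
  unfold bc
  rw [D_zero]
  simp

/-- the rule -/
lemma bc_succ (n : ℂ) (k : ℕ) (h : k + 1 < N) :
    bc N n (k + 1) * sn N ((k : ℂ) + 1) = bc N n k * sn N (n - k) := by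
  unfold bc
  rw [prod_range_succ, D_succ]
  have h1 := D_ne (N := N) k (by omega)
  have h2 := sn_succ_ne (N := N) k h
  field_simp

/-- the product of all sines -/
lemma prod_sn (hN : 0 < N) (x : ℂ) : ∏ k ∈ range N, sn N (x + k) = 2 * Complex.sin (Real.pi * x) :=
  prod_two_sin N hN x

/-- the product of two complementary binomials -/
lemma bc_prod {n1 n2 : ℂ} (hn : n1 + n2 = N - 1) (m m' : ℕ) (h : m + m' + 1 = N) :
    bc N n1 m * bc N n2 m' * (N * sn N (n1 - m)) = (-1) ^ m * (2 * Complex.sin (Real.pi * n1)) := by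
  have hN : 0 < N := by omega
  have hNc : (N : ℂ) ≠ 0 := by exact_mod_cast hN.ne'
  have hD : ((D N m : ℝ) : ℂ) * ((D N m' : ℝ) : ℂ) = N := by
    rw [← Complex.ofReal_mul, D_refl N m m' h]
    simp
  have h1 := D_ne (N := N) m (by omega)
  have h2 := D_ne (N := N) m' (by omega)
  have hP := prod_sn hN (n1 - m)
  rw [show N = (m + 1) + m' by omega, prod_range_add, prod_range_succ'] at hP
  rw [← show N = (m + 1) + m' by omega] at hP
  have e1 : ∏ k ∈ range m, sn N (n1 - m + ((k + 1 : ℕ) : ℂ)) = ∏ j ∈ range m, sn N (n1 - j) := by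
    rw [← prod_range_reflect]
    refine prod_congr rfl fun k hk => ?_
    have hk := mem_range.mp hk
    congr 1
    rw [show m - 1 - k + 1 = m - k by omega, Nat.cast_sub (by omega)]
    ring
  have e2 : ∏ k ∈ range m', sn N (n1 - m + ((m + 1 + k : ℕ) : ℂ)) = ∏ j ∈ range m', sn N (n2 - j) := by
    refine prod_congr rfl fun k _ => ?_
    rw [← sn_refl hN (n2 - k)]
    congr 1
    push_cast
    linear_combination hn
  rw [e1, e2] at hP
  have e3 : 2 * Complex.sin (Real.pi * (n1 - m)) = (-1) ^ m * (2 * Complex.sin (Real.pi * n1)) := by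
    rw [mul_sub, mul_comm (Real.pi : ℂ) (m : ℂ), Complex.sin_antiperiodic.sub_nat_mul_eq]
    ring
  rw [e3] at hP
  rw [Nat.cast_zero, add_zero] at hP
  unfold bc
  obtain ⟨S, hS⟩ : ∃ S, S = Complex.sin (Real.pi * n1) := ⟨_, rfl⟩
  obtain ⟨s, hs⟩ : ∃ s, s = sn N (n1 - m) := ⟨_, rfl⟩
  rw [← hS, ← hs] at hP
  rw [← hS, ← hs, ← hD]
  field_simp
  linear_combination hP

/-- points which are not integers -/
lemma gen_dense : Dense {z : ℂ | ∀ k : ℤ, z ≠ k} := by
  have h := (Set.countable_range fun k : ℤ => (k : ℂ)).dense_compl ℝ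
  refine h.mono ?_
  intro z hz k hk
  exact hz ⟨k, hk.symm⟩

lemma sn_gen (hN : 0 < N) {z : ℂ} (hz : ∀ k : ℤ, z ≠ k) (j : ℤ) : sn N ((N - 1 + z) / 2 - j) ≠ 0 := by
  intro h
  unfold sn at h
  rcases mul_eq_zero.1 h with h | h
  · norm_num at h
  · rw [Complex.sin_eq_zero_iff] at h
    obtain ⟨k, hk⟩ := h
    have hNc : (N : ℂ) ≠ 0 := by exact_mod_cast hN.ne'
    have hpi : (Real.pi : ℂ) ≠ 0 := by exact_mod_cast Real.pi_ne_zero
    refine hz (2 * (k * N + j) - N + 1) ?_
    field_simp at hk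
    push_cast
    linear_combination hk

lemma bc_cont (k : ℕ) : Continuous fun n : ℂ => bc N n k := by
  unfold bc sn
  fun_prop

lemma Wk_cont (A β C : ℕ) : Continuous fun z : ℂ => Wk N z A β C := by
  unfold Wk
  have h := fun k => bc_cont (N := N) k
  refine continuous_finsetSum _ fun b _ => ?_
  have h1 : Continuous fun z : ℂ => ((N : ℂ) - 1 - z) / 2 := by fun_prop
  have h2 : Continuous fun z : ℂ => ((N : ℂ) - 1 + z) / 2 := by fun_prop
  exact ((((h A).comp h1).mul ((h C).comp h2)).mul (((h b).comp h2).mul ((h (β - b)).comp h1))).mul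
    (((h (A + b)).comp h2).mul ((h (C + (β - b))).comp h1))

end Pool.Agent.Q210.KN
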