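import Pool.Agent.Q99.KN.Stm3
import Pool.Agent.Q210.KN.Bas
import Pool.Agent.W51.BS.Stir

/-!
# Project KN (helper99), job WB: bounds at the lattice points
-/

set_option autoImplicit false

namespace Pool.Agent.Q210.KN

open Finset
open Pool.Agent.W719.BS (D D_pos D_refl LL)
open Pool.Agent.W51.BS (gg LL_cont LL_hasDeriv LL_zero LL_one LL_symm LL_half)
open Pool.Agent.Q99.KN
open Pool.Agent.Q99.FAL (bq S_T1 hh)

/-! ### bounds for `LL` -/

lemma LL_up {a b c : ℝ} (ha : 0 ≤ a) (hb : b ≤ 1) (hab : a ≤ b) (h : ∀ t, a < t → t < b → gg t ≤ c) :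
    LL b - LL a ≤ c * (b - a) := by
  refine (convex_Icc a b).image_sub_le_mul_sub_of_deriv_le LL_cont.continuousOn ?_ ?_ a
    ⟨le_rfl, hab⟩ b ⟨hab, le_rfl⟩ hab
  · intro t ht
    rw [interior_Icc] at ht
    exact (LL_hasDeriv (by linarith [ht.1]) (by linarith [ht.2])).differentiableAt.differentiableWithinAt
  · intro t ht
    rw [interior_Icc] at ht
    rw [(LL_hasDeriv (by linarith [ht.1]) (by linarith [ht.2])).deriv]
    exact h t ht.1 ht.2

lemma LL_low {a b c : ℝ} (ha : 0 ≤ a) (hb : b ≤ 1) (hab : a ≤ b) (h : ∀ t, a < t → t < b → c ≤ gg t) :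
    c * (b - a) ≤ LL b - LL a := by
  refine (convex_Icc a b).mul_sub_le_image_sub_of_le_deriv LL_cont.continuousOn ?_ ?_ a
    ⟨le_rfl, hab⟩ b ⟨hab, le_rfl⟩ hab
  · intro t ht
    rw [interior_Icc] at ht
    exact (LL_hasDeriv (by linarith [ht.1]) (by linarith [ht.2])).differentiableAt.differentiableWithinAt
  · intro t ht
    rw [interior_Icc] at ht
    rw [(LL_hasDeriv (by linarith [ht.1]) (by linarith [ht.2])).deriv]
    exact h t ht.1 ht.2

lemma sin_mono' {s t : ℝ} (hs : 0 ≤ s) (hst : s ≤ t) (ht : t ≤ 1 / 2) :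
    Real.sin (Real.pi * s) ≤ Real.sin (Real.pi * t) := by
  have hpi := Real.pi_pos
  apply Real.sin_le_sin_of_le_of_le_pi_div_two
  · nlinarith
  · nlinarith
  · exact mul_le_mul_of_nonneg_left hst hpi.le

lemma sin6 : Real.sin (Real.pi * (1 / 6)) = 1 / 2 := by
  rw [show Real.pi * (1 / 6) = Real.pi / 6 by ring, Real.sin_pi_div_six]

lemma sin4 : Real.sin (Real.pi * (1 / 4)) = √2 / 2 := by
  rw [show Real.pi * (1 / 4) = Real.pi / 4 by ring, Real.sin_pi_div_four]

lemma sin3 : Real.sin (Real.pi * (1 / 3)) = √3 / 2 := by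
  rw [show Real.pi * (1 / 3) = Real.pi / 3 by ring, Real.sin_pi_div_three]

lemma gg_mono {s t : ℝ} (hs : 0 < s) (hst : s ≤ t) (ht : t ≤ 1 / 2) : gg s ≤ gg t := by
  unfold gg
  have h1 := sin_mono' hs.le hst ht
  have h2 := Pool.Agent.W51.BS.sin_pos' hs (by linarith)
  exact Real.log_le_log (by linarith) (by linarith)

lemma gg6 : gg (1 / 6) = 0 := by
  unfold gg
  rw [sin6]
  norm_num

lemma gg4 : gg (1 / 4) = Real.log 2 / 2 := by
  unfold gg
  rw [sin4, show 2 * (√2 / 2) = √2 by ring, Real.log_sqrt (by norm_num)]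

lemma gg3 : gg (1 / 3) = Real.log 3 / 2 := by
  unfold gg
  rw [sin3, show 2 * (√3 / 2) = √3 by ring, Real.log_sqrt (by norm_num)]

lemma LL_nonpos {x : ℝ} (h0 : 0 ≤ x) (h1 : x ≤ 1 / 2) : LL x ≤ 0 := by
  rcases le_total x (1 / 6) with h | h
  · have := LL_up (a := 0) (b := x) (c := 0) le_rfl (by linarith) h0 fun t h2 h3 => by
      rw [← gg6]
      exact gg_mono h2 (by linarith) (by norm_num)
    rw [LL_zero] at this
    linarith
  · have := LL_low (a := x) (b := 1 / 2) (c := 0) h0 (by norm_num) h1 fun t h2 h3 => by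
      rw [← gg6]
      exact gg_mono (by norm_num) (by linarith) h3.le
    rw [LL_half] at this
    linarith

lemma LL_ge {x : ℝ} (h0 : 0 ≤ x) (h1 : x ≤ 1 / 2) : LL (1 / 6) ≤ LL x := by
  rcases le_total x (1 / 6) with h | h
  · have := LL_up (a := x) (b := 1 / 6) (c := 0) h0 (by norm_num) h fun t h2 h3 => by
      rw [← gg6]
      exact gg_mono (by linarith) h3.le (by norm_num)
    linarith
  · have := LL_low (a := 1 / 6) (b := x) (c := 0) (by norm_num) (by linarith) h fun t h2 h3 => by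
      rw [← gg6]
      exact gg_mono (by norm_num) (by linarith) (by linarith)
    linarith

lemma LL_nonneg {x : ℝ} (h0 : 1 / 2 ≤ x) (h1 : x ≤ 1) : 0 ≤ LL x := by
  have := LL_nonpos (x := 1 - x) (by linarith) (by linarith)
  rw [LL_symm] at this
  linarith

lemma LL_le {x : ℝ} (h0 : 0 ≤ x) (h1 : x ≤ 1) : LL x ≤ -LL (1 / 6) := by
  have h6 : LL (1 / 6) ≤ 0 := LL_nonpos (by norm_num) (by norm_num)
  rcases le_total x (1 / 2) with h | h
  · have := LL_nonpos h0 h
    linarith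
  · have := LL_ge (x := 1 - x) (by linarith) (by linarith)
    rw [LL_symm] at this
    linarith

lemma gap : 3 * (-LL (1 / 6)) < H0 := by
  have h1 := LL_up (a := 1 / 6) (b := 1 / 4) (c := Real.log 2 / 2) (by norm_num) (by norm_num)
    (by norm_num) fun t h2 h3 => by
      rw [← gg4]
      exact gg_mono (by linarith) h3.le (by norm_num)
  have h2 := LL_low (a := 1 / 4) (b := 1 / 3) (c := Real.log 2 / 2) (by norm_num) (by norm_num)
    (by norm_num) fun t h2 h3 => by
      rw [← gg4]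
      exact gg_mono (by linarith) h2.le (by linarith)
  have h3 := LL_low (a := 1 / 3) (b := 1 / 2) (c := Real.log 3 / 2) (by norm_num) (by norm_num)
    (by norm_num) fun t h2 h3 => by
      rw [← gg3]
      exact gg_mono (by linarith) h2.le (by linarith)
  rw [LL_half] at h3
  have h4 : Real.log 2 < Real.log 3 := Real.log_lt_log (by norm_num) (by norm_num)
  unfold H0
  linarith

/-! ### derivatives -/

section
variable {N : ℕ}

lemma sn_der (n : ℂ) (j : ℂ) :
    HasDerivAt (fun n : ℂ => sn N (n - j)) (2 * Real.pi / N * Complex.cos (Real.pi * (n - j) / N)) n := by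
  have h1 : HasDerivAt (fun n : ℂ => Real.pi * (n - j) / N) (Real.pi * 1 / N : ℂ) n :=
    (((hasDerivAt_id n).sub_const j).const_mul _).div_const _
  have h2 := h1.csin.const_mul 2
  unfold sn
  refine h2.congr_deriv ?_
  ring

lemma P_der (y : ℕ) (n : ℂ) : HasDerivAt (fun n : ℂ => ∏ j ∈ range y, sn N (n - j))
    (∑ i ∈ range y, (∏ j ∈ (range y).erase i, sn N (n - j)) *
      (2 * Real.pi / N * Complex.cos (Real.pi * (n - i) / N))) n := by
  have := HasDerivAt.fun_finsetProd (u := range y) (f := fun (j : ℕ) (n : ℂ) => sn N (n - j))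
    (f' := fun i : ℕ => 2 * Real.pi / N * Complex.cos (Real.pi * (n - i) / N)) (x := n)
    fun i _ => sn_der n i
  simpa only [smul_eq_mul] using this

lemma bc_der (y : ℕ) (n : ℂ) : HasDerivAt (fun n : ℂ => bc N n y)
    ((∑ i ∈ range y, (∏ j ∈ (range y).erase i, sn N (n - j)) *
      (2 * Real.pi / N * Complex.cos (Real.pi * (n - i) / N))) / (D N y : ℝ)) n :=
  (P_der y n).div_const _

lemma cos_norm (hN : 1 ≤ N) (n i : ℕ) :
    ‖(2 * Real.pi / N * Complex.cos (Real.pi * ((n : ℂ) - i) / N) : ℂ)‖ ≤ 2 * Real.pi / N := by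
  have h : (2 * Real.pi / N * Complex.cos (Real.pi * ((n : ℂ) - i) / N) : ℂ) =
      ((2 * Real.pi / N * Real.cos (Real.pi * ((n : ℝ) - i) / N) : ℝ) : ℂ) := by
    push_cast
    rfl
  have hN' : (0 : ℝ) < N := by exact_mod_cast hN
  have hpi := Real.pi_pos
  rw [h, Complex.norm_real, Real.norm_eq_abs, abs_mul, abs_of_pos (by positivity : 0 < 2 * Real.pi / N)]
  exact mul_le_of_le_one_right (by positivity) (Real.abs_cos_le_one _)

lemma sn_real (m : ℝ) : sn N (m : ℂ) = ((2 * Real.sin (Real.pi * m / N) : ℝ) : ℂ) := by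
  unfold sn
  push_cast
  rfl

lemma sn_norm_low (m : ℕ) (h0 : 0 < m) (h : m < N) : 4 / (N : ℝ) ≤ ‖sn N (m : ℂ)‖ := by
  have hN : (0 : ℝ) < N := by exact_mod_cast (by omega : 0 < N)
  have hm : (1 : ℝ) ≤ m := by exact_mod_cast h0
  have hmN : (m : ℝ) + 1 ≤ N := by exact_mod_cast h
  have hpi := Real.pi_pos
  have h1 : sn N (m : ℂ) = ((2 * Real.sin (Real.pi * m / N) : ℝ) : ℂ) := by
    have := sn_real (N := N) (m : ℝ)
    rw [Complex.ofReal_natCast] at this
    exact this
  have key : 2 / (N : ℝ) ≤ Real.sin (Real.pi * m / N) := by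
    rcases le_total (2 * (m : ℝ)) N with h2 | h2
    · have := Real.mul_le_sin (x := Real.pi * m / N) (by positivity) (by
        rw [div_le_div_iff₀ hN (by norm_num)]
        nlinarith)
      have e : 2 / Real.pi * (Real.pi * m / N) = 2 * m / N := by field_simp
      rw [e] at this
      refine le_trans ?_ this
      apply div_le_div_of_nonneg_right _ hN.le
      linarith
    · have := Real.mul_le_sin (x := Real.pi - Real.pi * m / N) (by
        rw [sub_nonneg, div_le_iff₀ hN]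
        nlinarith) (by
        rw [sub_le_comm, show Real.pi - Real.pi / 2 = Real.pi / 2 by ring,
          div_le_div_iff₀ (by norm_num) hN]
        nlinarith)
      rw [Real.sin_pi_sub] at this
      have e : 2 / Real.pi * (Real.pi - Real.pi * m / N) = 2 * (N - m) / N := by field_simp
      rw [e] at this
      refine le_trans ?_ this
      apply div_le_div_of_nonneg_right _ hN.le
      linarith
  rw [h1, Complex.norm_real, Real.norm_eq_abs]
  refine le_trans ?_ (le_abs_self _)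
  have : 4 / (N : ℝ) = 2 * (2 / N) := by ring
  rw [this]
  linarith

lemma D_succ' (k : ℕ) : (D N (k + 1) : ℝ) = D N k * (2 * Real.sin (Real.pi * (k + 1) / N)) := by
  unfold D
  rw [prod_range_succ]

lemma P_nat {n y : ℕ} (h : y ≤ n) :
    (∏ j ∈ range y, sn N ((n : ℂ) - j)) * (D N (n - y) : ℝ) = (D N n : ℝ) := by
  induction y with
  | zero => simp
  | succ y ih =>
    have := ih (by omega)
    rw [← this, prod_range_succ, show n - y = n - (y + 1) + 1 by omega, D_succ,
      show ((n - (y + 1) : ℕ) : ℂ) + 1 = n - y by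
        rw [Nat.cast_sub (by omega)]
        push_cast
        ring]
    ring

lemma P_nat0 {n y : ℕ} (h : n < y) : ∏ j ∈ range y, sn N ((n : ℂ) - j) = 0 :=
  prod_eq_zero (mem_range.2 h) (by rw [sub_self, sn_zero])

lemma norm_P {n y : ℕ} (hn : n < N) (h : y ≤ n) :
    ‖∏ j ∈ range y, sn N ((n : ℂ) - j)‖ = D N n / D N (n - y) := by
  have h1 := P_nat (N := N) h
  have h2 := D_pos N (n - y) (by omega)
  have h3 := D_pos N n hn
  rw [eq_div_iff h2.ne']
  have := congrArg norm h1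
  rw [norm_mul, Complex.norm_real, Complex.norm_real, Real.norm_eq_abs, Real.norm_eq_abs,
    abs_of_pos h2, abs_of_pos h3] at this
  exact this

/-- the case of non-vanishing binomials -/
lemma dP_le {n y : ℕ} (hn : n < N) (h : y ≤ n) :
    ‖∑ i ∈ range y, (∏ j ∈ (range y).erase i, sn N ((n : ℂ) - j)) *
      (2 * Real.pi / N * Complex.cos (Real.pi * ((n : ℂ) - i) / N))‖ ≤
      2 * N * (D N n / D N (n - y)) := by
  have hN : (0 : ℝ) < N := by exact_mod_cast (by omega : 0 < N)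
  have hpi := Real.pi_pos
  have hpi4 := Real.pi_lt_four
  have hq : 0 ≤ D N n / D N (n - y) := div_nonneg (D_pos N n hn).le (D_pos N _ (by omega)).le
  have h1 : ∀ i ∈ range y, ‖(∏ j ∈ (range y).erase i, sn N ((n : ℂ) - j)) *
      (2 * Real.pi / N * Complex.cos (Real.pi * ((n : ℂ) - i) / N))‖ ≤
      2 * (D N n / D N (n - y)) := by
    intro i hi
    have hi' := mem_range.1 hi
    have e := mul_prod_erase (range y) (fun j : ℕ => sn N ((n : ℂ) - j)) hi
    have e2 := congrArg norm e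
    rw [norm_mul, norm_P hn h] at e2
    have h3 := sn_norm_low (N := N) (n - i) (by omega) (by omega)
    rw [Nat.cast_sub (by omega : i ≤ n)] at h3
    obtain ⟨Q, hQ⟩ : ∃ Q, Q = ‖∏ j ∈ (range y).erase i, sn N ((n : ℂ) - j)‖ := ⟨_, rfl⟩
    have hQ0 : 0 ≤ Q := by rw [hQ]; exact norm_nonneg _
    rw [norm_mul, ← hQ]
    rw [← hQ] at e2
    have h4 : 4 / (N : ℝ) * Q ≤ D N n / D N (n - y) := by
      rw [← e2]
      exact mul_le_mul_of_nonneg_right h3 hQ0
    have h5 := cos_norm (N := N) (by omega) n i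
    calc Q * ‖(2 * Real.pi / N * Complex.cos (Real.pi * ((n : ℂ) - i) / N) : ℂ)‖
        ≤ Q * (2 * Real.pi / N) := mul_le_mul_of_nonneg_left h5 hQ0
      _ = Real.pi / 2 * (4 / (N : ℝ) * Q) := by ring
      _ ≤ Real.pi / 2 * (D N n / D N (n - y)) := mul_le_mul_of_nonneg_left h4 (by positivity)
      _ ≤ 2 * (D N n / D N (n - y)) := mul_le_mul_of_nonneg_right (by linarith) hq
  refine (norm_sum_le_of_le _ h1).trans ?_
  rw [sum_const, card_range, nsmul_eq_mul]
  have h2 : (y : ℝ) ≤ N := by exact_mod_cast (by omega : y ≤ N)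
  have : (y : ℝ) * (2 * (D N n / D N (n - y))) ≤ N * (2 * (D N n / D N (n - y))) :=
    mul_le_mul_of_nonneg_right h2 (by positivity)
  linarith

lemma prod_erase_norm {n : ℕ} (m : ℕ) (hm : n + 1 + m ≤ N) :
    ‖∏ j ∈ (range (n + 1 + m)).erase n, sn N ((n : ℂ) - j)‖ = D N n * D N m := by
  induction m with
  | zero =>
    have e : (range (n + 1 + 0)).erase n = range n := by
      rw [add_zero, range_add_one, erase_insert (by simp)]
    rw [e, norm_P (by omega) le_rfl, Nat.sub_self]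
    have : D N 0 = 1 := D_zero (N := N)
    rw [this]
    ring
  | succ m ih =>
    have e : (range (n + 1 + (m + 1))).erase n = insert (n + 1 + m) ((range (n + 1 + m)).erase n) := by
      rw [← add_assoc, range_add_one, erase_insert_of_ne (by omega)]
    have hN : (0 : ℝ) < N := by exact_mod_cast (by omega : 0 < N)
    have hmN : (m : ℝ) + 1 ≤ N := by exact_mod_cast (by omega : m + 1 ≤ N)
    rw [e, prod_insert (by simp), norm_mul, ih (by omega), D_succ']
    have h1 : ‖sn N ((n : ℂ) - ((n + 1 + m : ℕ) : ℂ))‖ = 2 * Real.sin (Real.pi * (m + 1) / N) := by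
      have h2 : (n : ℂ) - ((n + 1 + m : ℕ) : ℂ) = -(((m + 1 : ℝ)) : ℂ) := by push_cast; ring
      rw [h2, sn_neg, norm_neg, sn_real, Complex.norm_real, Real.norm_eq_abs, abs_of_nonneg]
      have : 0 ≤ Real.sin (Real.pi * (m + 1) / N) := by
        apply Real.sin_nonneg_of_nonneg_of_le_pi
        · have := Real.pi_pos
          positivity
        · rw [div_le_iff₀ hN]
          exact mul_le_mul_of_nonneg_left hmN Real.pi_pos.le
      linarith
    rw [h1]
    ring

lemma dP_le0 {n y : ℕ} (hy : y ≤ N) (h : n < y) :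
    ‖∑ i ∈ range y, (∏ j ∈ (range y).erase i, sn N ((n : ℂ) - j)) *
      (2 * Real.pi / N * Complex.cos (Real.pi * ((n : ℂ) - i) / N))‖ ≤
      2 * Real.pi / N * (D N n * D N (y - 1 - n)) := by
  have hN : (0 : ℝ) < N := by exact_mod_cast (by omega : 0 < N)
  rw [sum_eq_single_of_mem n (mem_range.2 h)]
  · obtain ⟨m, rfl⟩ : ∃ m, y = n + 1 + m := ⟨y - (n + 1), by omega⟩
    rw [norm_mul, prod_erase_norm m hy, show n + 1 + m - 1 - n = m by omega, mul_comm]
    refine mul_le_mul_of_nonneg_right (cos_norm (by omega) n n) ?_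
    exact mul_nonneg (D_pos N n (by omega)).le (D_pos N m (by omega)).le
  · intro i hi hin
    rw [prod_eq_zero (mem_erase.2 ⟨fun h => hin h.symm, mem_range.2 h⟩) (by rw [sub_self, sn_zero]),
      zero_mul]

lemma bn_eq {n y : ℕ} (hn : n < N) (h : y ≤ n) :
    ‖bc N (n : ℂ) y‖ = D N n / D N (n - y) / D N y := by
  unfold bc
  rw [norm_div, norm_P hn h, Complex.norm_real, Real.norm_eq_abs, abs_of_pos (D_pos N y (by omega))]

lemma bn_zero {n y : ℕ} (h : n < y) : bc N (n : ℂ) y = 0 := by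
  unfold bc
  rw [P_nat0 h, zero_div]

lemma bd_le {n y : ℕ} (hn : n < N) (h : y ≤ n) :
    ‖deriv (fun n : ℂ => bc N n y) (n : ℂ)‖ ≤ 2 * N * ‖bc N (n : ℂ) y‖ := by
  rw [(bc_der y (n : ℂ)).deriv, norm_div, bn_eq hn h, Complex.norm_real, Real.norm_eq_abs,
    abs_of_pos (D_pos N y (by omega))]
  have h1 := dP_le hn h
  have h2 := D_pos N y (by omega)
  rw [← mul_div_assoc]
  exact div_le_div_of_nonneg_right h1 h2.le

lemma bd_le0 {n y : ℕ} (hy : y < N) (h : n < y) :
    ‖deriv (fun n : ℂ => bc N n y) (n : ℂ)‖ ≤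
      2 * Real.pi / N * (D N n * D N (y - 1 - n)) / D N y := by
  rw [(bc_der y (n : ℂ)).deriv, norm_div, Complex.norm_real, Real.norm_eq_abs,
    abs_of_pos (D_pos N y (by omega))]
  exact div_le_div_of_nonneg_right (dP_le0 hy.le h) (D_pos N y hy).le

lemma bq_eq {n y : ℕ} (hn : n < N) (h : y ≤ n) : bq N n y = ‖bc N (n : ℂ) y‖ := by
  rw [bn_eq hn h]
  unfold bq Pool.Agent.Q99.FW.TZ
  rw [if_pos ⟨by omega, by omega, by omega⟩]
  have e1 : ((y : ℤ)).toNat = y := by omega
  have e2 : ((n : ℤ) - y).toNat = n - y := by omega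
  have e3 : ((N : ℤ) - 1 - n).toNat = N - 1 - n := by omega
  rw [e1, e2, e3]
  unfold Pool.Agent.Q99.FW.Tri
  have h1 := D_refl N n (N - 1 - n) (by omega)
  have h2 := D_pos N y (by omega)
  have h3 := D_pos N (n - y) (by omega)
  have h4 := D_pos N (N - 1 - n) (by omega)
  rw [div_div, div_eq_div_iff (by positivity) (by positivity), ← h1]
  ring

end

/-- the factorials -/
lemma D_bd : ∃ A : ℝ, 0 < A ∧ ∀ N n : ℕ, n < N →
    D N n ≤ A * √N * Real.exp (N * LL ((n + 1 / 2) / N)) ∧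
    √N * Real.exp (N * LL ((n + 1 / 2) / N)) ≤ A * D N n := by
  obtain ⟨C, hC⟩ := Pool.Agent.W51.BS.task_stir.1
  refine ⟨Real.exp C, Real.exp_pos _, fun N n hn => ?_⟩
  have hN : (0 : ℝ) < N := by exact_mod_cast (by omega : 0 < N)
  have h1 := abs_le.1 (hC N n hn)
  have h2 := D_pos N n hn
  have h3 : √(N : ℝ) = Real.exp (Real.log N / 2) := by
    rw [← Real.log_sqrt hN.le, Real.exp_log (Real.sqrt_pos.2 hN)]
  have h4 : D N n = Real.exp (Real.log (D N n)) := (Real.exp_log h2).symm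
  constructor
  · rw [h3, ← Real.exp_add, ← Real.exp_add]
    rw [h4]
    apply Real.exp_le_exp.2
    linarith [h1.2]
  · rw [h3, ← Real.exp_add]
    rw [h4, ← Real.exp_add]
    apply Real.exp_le_exp.2
    linarith [h1.1]

/-- the exponent of the quotient of the factorials -/
lemma LL_comb {N a b y : ℕ} (hN : 0 < N) (hay : a ≤ y) (hb : b < N) (hy : y < N) :
    LL ((a + 1 / 2) / N) + LL ((b + 1 / 2) / N) - 2 * LL ((y + 1 / 2) / N) ≤ 3 * (-LL (1 / 6)) := by
  have hNr : (0 : ℝ) < N := by exact_mod_cast hN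
  have h1 : (b : ℝ) + 1 ≤ N := by exact_mod_cast hb
  have h2 : (y : ℝ) + 1 ≤ N := by exact_mod_cast hy
  have h3 : (a : ℝ) ≤ y := by exact_mod_cast hay
  have h6 : LL (1 / 6) ≤ 0 := LL_nonpos (by norm_num) (by norm_num)
  have e1 : ((a : ℝ) + 1 / 2) / N ≤ ((y : ℝ) + 1 / 2) / N :=
    div_le_div_of_nonneg_right (by linarith) hNr.le
  have e2 : ((b : ℝ) + 1 / 2) / N ≤ 1 := by rw [div_le_one hNr]; linarith
  have e3 : ((y : ℝ) + 1 / 2) / N ≤ 1 := by rw [div_le_one hNr]; linarith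
  have e4 : 0 ≤ ((a : ℝ) + 1 / 2) / N := by positivity
  have e5 : 0 ≤ ((b : ℝ) + 1 / 2) / N := by positivity
  have e6 : 0 ≤ ((y : ℝ) + 1 / 2) / N := by positivity
  have f1 := LL_le e5 e2
  rcases le_total (((y : ℝ) + 1 / 2) / N) (1 / 2) with h | h
  · have f2 := LL_nonpos e4 (e1.trans h)
    have f3 := LL_ge e6 h
    linarith
  · have f2 := LL_le e4 (e1.trans e3)
    have f3 := LL_nonneg h e3
    linarith

lemma D_quot : ∃ A : ℝ, 0 < A ∧ ∀ N a b y : ℕ, a ≤ y → b < N → y < N →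
    D N a * D N b / D N y ^ 2 ≤ A * Real.exp (N * (3 * (-LL (1 / 6)))) := by
  obtain ⟨A, hA, h⟩ := D_bd
  refine ⟨A ^ 4, by positivity, fun N a b y hay hb hy => ?_⟩
  have hN : 0 < N := by omega
  have hNr : (0 : ℝ) < N := by exact_mod_cast hN
  have h1 := (h N a (by omega)).1
  have h2 := (h N b hb).1
  have h3 := (h N y hy).2
  have p1 := D_pos N a (by omega)
  have p2 := D_pos N b hb
  have p3 := D_pos N y hy
  have hc := LL_comb hN hay hb hy
  rw [div_le_iff₀ (by positivity)]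
  obtain ⟨ea, hea⟩ : ∃ e, e = LL (((a : ℝ) + 1 / 2) / N) := ⟨_, rfl⟩
  obtain ⟨eb, heb⟩ : ∃ e, e = LL (((b : ℝ) + 1 / 2) / N) := ⟨_, rfl⟩
  obtain ⟨ey, hey⟩ : ∃ e, e = LL (((y : ℝ) + 1 / 2) / N) := ⟨_, rfl⟩
  rw [← hea] at h1 hc
  rw [← heb] at h2 hc
  rw [← hey] at h3 hc
  have s0 : 0 ≤ √(N : ℝ) := Real.sqrt_nonneg _
  calc D N a * D N b ≤ (A * √N * Real.exp (N * ea)) * (A * √N * Real.exp (N * eb)) :=
        mul_le_mul h1 h2 p2.le (by positivity)
    _ = A ^ 2 * √N ^ 2 * Real.exp (N * (ea + eb - 2 * ey)) * Real.exp (N * ey) ^ 2 := by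
        rw [← Real.exp_nat_mul]
        have : Real.exp (N * (ea + eb - 2 * ey)) * Real.exp ((2 : ℕ) * (N * ey)) =
          Real.exp (N * ea) * Real.exp (N * eb) := by
          rw [← Real.exp_add, ← Real.exp_add]
          congr 1
          push_cast
          ring
        linear_combination (-(A ^ 2 * √N ^ 2)) * this
    _ = A ^ 2 * Real.exp (N * (ea + eb - 2 * ey)) * (√N * Real.exp (N * ey)) ^ 2 := by ring
    _ ≤ A ^ 2 * Real.exp (N * (3 * (-LL (1 / 6)))) * (A * D N y) ^ 2 := by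
        gcongr
    _ = A ^ 4 * Real.exp (N * (3 * (-LL (1 / 6)))) * D N y ^ 2 := by ring

/-- the exponent -/
noncomputable def Ex (κ : ℝ) (N y n m : ℕ) : ℝ :=
  Real.exp (N * (H0 - κ * (((y : ℝ) / N - 1 / 4) ^ 2 + (((n : ℝ) - m) / N) ^ 2)))

lemma Ex_symm (κ : ℝ) (N y n m : ℕ) : Ex κ N y n m = Ex κ N y m n := by
  have h : (((n : ℝ) - m) / N) ^ 2 = (((m : ℝ) - n) / N) ^ 2 := by ring
  unfold Ex
  rw [h]

lemma q_le {N y n m : ℕ} (h : n + m + 1 = N) (hy : y < N) :
    ((y : ℝ) / N - 1 / 4) ^ 2 + (((n : ℝ) - m) / N) ^ 2 ≤ 2 := by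
  have hNr : (0 : ℝ) < N := by exact_mod_cast (by omega : 0 < N)
  have h1 : (y : ℝ) / N ≤ 1 := by
    rw [div_le_one hNr]
    exact_mod_cast hy.le
  have h2 : 0 ≤ (y : ℝ) / N := by positivity
  have h3 : ((n : ℝ) - m) / N ≤ 1 := by
    rw [div_le_one hNr]
    have : (n : ℝ) ≤ N := by exact_mod_cast (by omega : n ≤ N)
    have : (0 : ℝ) ≤ m := by positivity
    linarith
  have h4 : -1 ≤ ((n : ℝ) - m) / N := by
    rw [le_div_iff₀ hNr]
    have : (m : ℝ) ≤ N := by exact_mod_cast (by omega : m ≤ N)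
    have : (0 : ℝ) ≤ n := by positivity
    linarith
  nlinarith

theorem task_WB : S_WB := by
  intro hT
  obtain ⟨C, κ, hC, hκ, hT⟩ := hT (1 / 4) (by norm_num) (by norm_num)
  obtain ⟨A, hA, hD⟩ := D_quot
  have hgap := gap
  obtain ⟨κ', hκ'⟩ : ∃ κ', κ' = min (κ / 2) ((H0 - 3 * (-LL (1 / 6))) / 2) := ⟨_, rfl⟩
  have hκ0 : 0 < κ' := by
    rw [hκ']
    exact lt_min (by linarith) (by linarith)
  have hκ1 : κ' ≤ κ / 2 := by rw [hκ']; exact min_le_left _ _
  have hκ2 : κ' ≤ (H0 - 3 * (-LL (1 / 6))) / 2 := by rw [hκ']; exact min_le_right _ _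
  -- the product of two binomials
  have key : ∀ N y n m : ℕ, n + m + 1 = N → y ≤ n → y ≤ m →
      ‖bc N (n : ℂ) y‖ * ‖bc N (m : ℂ) y‖ ≤ C ^ 2 * Ex κ' N y n m := by
    intro N y n m h hn hm
    have hN : (0 : ℝ) < N := by exact_mod_cast (by omega : 0 < N)
    have hN1 : (1 : ℝ) ≤ N := by exact_mod_cast (by omega : 1 ≤ N)
    have hnm : (n : ℝ) + m + 1 = N := by exact_mod_cast h
    have t1 := hT N n y (by omega)
    have t2 := hT N m y (by omega)
    rw [bq_eq (by omega) hn] at t1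
    rw [bq_eq (by omega) hm] at t2
    have hs : 0 ≤ √(N : ℝ) := Real.sqrt_nonneg _
    have t3 := mul_le_mul t1 t2 (by positivity) (by positivity)
    rw [show √(N : ℝ) * ‖bc N (n : ℂ) y‖ * (√(N : ℝ) * ‖bc N (m : ℂ) y‖) =
      √(N : ℝ) * √(N : ℝ) * (‖bc N (n : ℂ) y‖ * ‖bc N (m : ℂ) y‖) by ring, Real.mul_self_sqrt hN.le] at t3
    have t4 : ‖bc N (n : ℂ) y‖ * ‖bc N (m : ℂ) y‖ ≤ N * (‖bc N (n : ℂ) y‖ * ‖bc N (m : ℂ) y‖) :=
      le_mul_of_one_le_left (by positivity) hN1
    refine (t4.trans t3).trans ?_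
    rw [mul_mul_mul_comm, ← Real.exp_add, ← sq]
    refine mul_le_mul_of_nonneg_left ?_ (by positivity)
    unfold Ex
    apply Real.exp_le_exp.2
    have htan : Real.log (Real.tan (Real.pi * (1 / 4))) = 0 := by
      rw [show Real.pi * (1 / 4) = Real.pi / 4 by ring, Real.tan_pi_div_four, Real.log_one]
    have hcos : Real.log (Real.cos (Real.pi * (1 / 4))) ≤ 0 := by
      apply Real.log_nonpos
      · apply Real.cos_nonneg_of_neg_pi_div_two_le_of_le <;> linarith [Real.pi_pos]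
      · exact Real.cos_le_one _
    have hhh : hh (1 / 4) = H0 / 2 := by
      unfold hh H0
      rw [show (1 / 2 - 1 / 4 : ℝ) = 1 / 4 by norm_num]
      ring
    rw [htan, hhh]
    push_cast
    have q1 : ((n : ℝ) - N / 2) = N * ((n : ℝ) / N - 1 / 2) := by field_simp
    have q2 : ((m : ℝ) - N / 2) = N * ((m : ℝ) / N - 1 / 2) := by field_simp
    have q3 : ((y : ℝ) - N * (1 / 4)) = N * ((y : ℝ) / N - 1 / 4) := by field_simp
    rw [q3]
    obtain ⟨u, hu⟩ : ∃ u, u = (y : ℝ) / N - 1 / 4 := ⟨_, rfl⟩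
    obtain ⟨v, hv⟩ : ∃ v, v = (n : ℝ) / N - 1 / 2 := ⟨_, rfl⟩
    obtain ⟨w, hw⟩ : ∃ w, w = (m : ℝ) / N - 1 / 2 := ⟨_, rfl⟩
    have q4 : ((n : ℝ) - m) / N = v - w := by rw [hv, hw]; ring
    have q5 : (n : ℝ) - N / 2 + (m - N / 2) = -1 := by linarith
    rw [q4]
    obtain ⟨L, hL⟩ : ∃ L, L = Real.log (Real.cos (Real.pi * (1 / 4))) := ⟨_, rfl⟩
    rw [← hL] at hcos ⊢
    have q6 : κ * ((N * u) ^ 2 + ((n : ℝ) - N / 2) ^ 2) / N = κ * N * (u ^ 2 + v ^ 2) := by
      rw [q1, ← hv]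
      field_simp
    have q7 : κ * ((N * u) ^ 2 + ((m : ℝ) - N / 2) ^ 2) / N = κ * N * (u ^ 2 + w ^ 2) := by
      rw [q2, ← hw]
      field_simp
    rw [← hu, q6, q7]
    have q8 : L * ((n : ℝ) - N / 2) + L * (m - N / 2) = -L := by
      rw [← mul_add, q5]
      ring
    have q9 : κ' * N * (u ^ 2 + (v - w) ^ 2) ≤ κ * N * (u ^ 2 + v ^ 2) + κ * N * (u ^ 2 + w ^ 2) := by
      have r1 : κ' * N * (u ^ 2 + (v - w) ^ 2) ≤ κ / 2 * N * (u ^ 2 + (v - w) ^ 2) := by
        gcongr
      have r2 : 0 ≤ κ * N * (3 * u ^ 2 + (v + w) ^ 2) := by positivity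
      nlinarith
    nlinarith
  -- the derivative of one factor times the other
  have key2 : ∀ N y n m : ℕ, n + m + 1 = N → y < N →
      ‖deriv (fun n : ℂ => bc N n y) (n : ℂ)‖ * ‖bc N (m : ℂ) y‖ ≤
        (2 * C ^ 2 + 8 * A) * N * Ex κ' N y n m := by
    intro N y n m h hy
    have hN : (0 : ℝ) < N := by exact_mod_cast (by omega : 0 < N)
    have hN1 : (1 : ℝ) ≤ N := by exact_mod_cast (by omega : 1 ≤ N)
    have hE : 0 < Ex κ' N y n m := Real.exp_pos _
    by_cases hm : y ≤ m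
    · by_cases hn : y ≤ n
      · have h1 := bd_le (N := N) (by omega) hn
        have h2 := key N y n m h hn hm
        calc ‖deriv (fun n : ℂ => bc N n y) (n : ℂ)‖ * ‖bc N (m : ℂ) y‖
            ≤ 2 * N * ‖bc N (n : ℂ) y‖ * ‖bc N (m : ℂ) y‖ :=
              mul_le_mul_of_nonneg_right h1 (norm_nonneg _)
          _ = 2 * N * (‖bc N (n : ℂ) y‖ * ‖bc N (m : ℂ) y‖) := by ring
          _ ≤ 2 * N * (C ^ 2 * Ex κ' N y n m) := mul_le_mul_of_nonneg_left h2 (by positivity)
          _ ≤ (2 * C ^ 2 + 8 * A) * N * Ex κ' N y n m := by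
              have : 0 ≤ 8 * A * N * Ex κ' N y n m := by positivity
              linarith
      · have hn' : n < y := by omega
        have h1 := bd_le0 hy hn'
        have p1 := D_pos N y hy
        have p2 := D_pos N (m - y) (by omega)
        have p3 := D_pos N n (by omega)
        have p4 := D_pos N m (by omega)
        have p5 := D_pos N (y - 1 - n) (by omega)
        have e1 := D_refl N n m h
        have e2 := D_refl N (m - y) (n + y) (by omega)
        have h3 := hD N (y - 1 - n) (n + y) y (by omega) (by omega) hy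
        have hpi := Real.pi_pos
        have hpi4 := Real.pi_lt_four
        rw [bn_eq (by omega) hm]
        calc ‖deriv (fun n : ℂ => bc N n y) (n : ℂ)‖ * (D N m / D N (m - y) / D N y)
            ≤ 2 * Real.pi / N * (D N n * D N (y - 1 - n)) / D N y * (D N m / D N (m - y) / D N y) :=
              mul_le_mul_of_nonneg_right h1 (by positivity)
          _ = 2 * Real.pi / N * (D N (y - 1 - n) * D N (n + y) / D N y ^ 2) := by
              have e3 : D N n * D N m = D N (m - y) * D N (n + y) := by rw [e1, e2]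
              field_simp
              linear_combination e3
          _ ≤ 8 * (D N (y - 1 - n) * D N (n + y) / D N y ^ 2) := by
              have p6 := D_pos N (n + y) (by omega)
              refine mul_le_mul_of_nonneg_right ?_ (by positivity)
              rw [div_le_iff₀ hN]
              nlinarith
          _ ≤ 8 * (A * Real.exp (N * (3 * (-LL (1 / 6))))) := mul_le_mul_of_nonneg_left h3 (by norm_num)
          _ ≤ 8 * (A * Ex κ' N y n m) := by
              refine mul_le_mul_of_nonneg_left (mul_le_mul_of_nonneg_left ?_ hA.le) (by norm_num)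
              unfold Ex
              apply Real.exp_le_exp.2
              refine mul_le_mul_of_nonneg_left ?_ hN.le
              have q := mul_le_mul_of_nonneg_left (q_le h hy) hκ0.le
              linarith
          _ ≤ (2 * C ^ 2 + 8 * A) * N * Ex κ' N y n m := by
              have r1 : 8 * (A * Ex κ' N y n m) ≤ 8 * A * Ex κ' N y n m * N := by
                have := le_mul_of_one_le_right (by positivity : 0 ≤ 8 * A * Ex κ' N y n m) hN1
                linarith
              have r2 : 0 ≤ 2 * C ^ 2 * N * Ex κ' N y n m := by positivity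
              linarith
    · rw [bn_zero (by omega : m < y), norm_zero, mul_zero]
      positivity
  refine ⟨C ^ 2 + (2 * C ^ 2 + 8 * A), κ', hκ0, fun N y k hy hk => ?_⟩
  have hN : (0 : ℝ) < N := by exact_mod_cast (by omega : 0 < N)
  have hN1 : (1 : ℝ) ≤ N := by exact_mod_cast (by omega : 1 ≤ N)
  obtain ⟨m, hm⟩ : ∃ m, m = N - 1 - k := ⟨_, rfl⟩
  have hkm : k + m + 1 = N := by omega
  have hkmc : (k : ℂ) + m + 1 = N := by exact_mod_cast hkm
  have hkmr : (k : ℝ) + m + 1 = N := by exact_mod_cast hkm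
  have a1 : ((N : ℂ) - 1 + zl N k) / 2 = k := by
    unfold zl
    ring
  have a2 : ((N : ℂ) - 1 - zl N k) / 2 = m := by
    unfold zl
    linear_combination -hkmc
  have eE : Real.exp (N * (H0 - κ' * (((y : ℝ) / N - 1 / 4) ^ 2 +
      ((2 * (k : ℝ) + 1 - N) / N) ^ 2))) = Ex κ' N y k m := by
    unfold Ex
    rw [show 2 * (k : ℝ) + 1 - N = k - m by linarith]
  have hE : 0 < Ex κ' N y k m := Real.exp_pos _
  rw [eE]
  have hd1 : HasDerivAt (fun z : ℂ => bc N (((N : ℂ) - 1 + z) / 2) y)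
      (deriv (fun n : ℂ => bc N n y) (k : ℂ) * (1 / 2)) (zl N k) := by
    have h1 : HasDerivAt (fun z : ℂ => ((N : ℂ) - 1 + z) / 2) (1 / 2) (zl N k) :=
      ((hasDerivAt_id _).const_add _).div_const _
    have h2 := (bc_der (N := N) y (((N : ℂ) - 1 + zl N k) / 2)).differentiableAt.hasDerivAt
    rw [a1] at h2
    exact HasDerivAt.comp (zl N k) (h₂ := fun n : ℂ => bc N n y) (a1.symm ▸ h2) h1
  have hd2 : HasDerivAt (fun z : ℂ => bc N (((N : ℂ) - 1 - z) / 2) y)
      (deriv (fun n : ℂ => bc N n y) (m : ℂ) * (-1 / 2)) (zl N k) := by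
    have h1 : HasDerivAt (fun z : ℂ => ((N : ℂ) - 1 - z) / 2) (-1 / 2) (zl N k) :=
      ((hasDerivAt_id _).const_sub _).div_const _
    have h2 := (bc_der (N := N) y (((N : ℂ) - 1 - zl N k) / 2)).differentiableAt.hasDerivAt
    rw [a2] at h2
    exact HasDerivAt.comp (zl N k) (h₂ := fun n : ℂ => bc N n y) (a2.symm ▸ h2) h1
  have hd : HasDerivAt (Wy N y) _ (zl N k) := hd1.mul hd2
  rw [hd.deriv]
  have hv : ‖Wy N y (zl N k)‖ ≤ C ^ 2 * Ex κ' N y k m := by
    unfold Wy
    rw [a1, a2, norm_mul]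
    by_cases h1 : y ≤ k
    · by_cases h2 : y ≤ m
      · exact key N y k m hkm h1 h2
      · rw [bn_zero (by omega : m < y), norm_zero, mul_zero]
        positivity
    · rw [bn_zero (by omega : k < y), norm_zero, zero_mul]
      positivity
  have k1 := key2 N y k m hkm hy
  have k2 := key2 N y m k (by omega) hy
  rw [← Ex_symm] at k2
  rw [a1, a2]
  have hN3 : (1 : ℝ) ≤ (N : ℝ) ^ 3 := one_le_pow₀ hN1
  have hN3' : (N : ℝ) ≤ (N : ℝ) ^ 3 := le_self_pow₀ hN1 (by norm_num)
  have hdd : ‖deriv (fun n : ℂ => bc N n y) (k : ℂ) * (1 / 2) * bc N (m : ℂ) y +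
      bc N (k : ℂ) y * (deriv (fun n : ℂ => bc N n y) (m : ℂ) * (-1 / 2))‖ ≤
      (2 * C ^ 2 + 8 * A) * N * Ex κ' N y k m := by
    refine (norm_add_le _ _).trans ?_
    rw [norm_mul, norm_mul, norm_mul, norm_mul]
    have n1 : ‖(1 / 2 : ℂ)‖ = 1 / 2 := by norm_num
    have n2 : ‖(-1 / 2 : ℂ)‖ = 1 / 2 := by norm_num
    rw [n1, n2]
    linarith
  have r1 : C ^ 2 * Ex κ' N y k m ≤ C ^ 2 * Ex κ' N y k m * N ^ 3 :=
    le_mul_of_one_le_right (by positivity) hN3
  have r2 : (2 * C ^ 2 + 8 * A) * Ex κ' N y k m * N ≤ (2 * C ^ 2 + 8 * A) * Ex κ' N y k m * N ^ 3 :=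
    mul_le_mul_of_nonneg_left hN3' (by positivity)
  linarith

end Pool.Agent.Q210.KN
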