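import Pool.Agent.Q210.KN.WG

/-!
# Project KN (helper99), job HH: the potential and the asymptotics of `WW`
-/

set_option autoImplicit false

namespace Pool.Agent.Q210.KN

open Finset
open Pool.Agent.Q99.KN

/-! ### numbers close to one -/

lemma near_mul {a b : ℂ} {x y : ℝ} {N : ℕ} (hN : 1 ≤ N) (hx : 0 ≤ x) (hy : 0 ≤ y)
    (ha : ‖a - 1‖ ≤ x / N) (hb : ‖b - 1‖ ≤ y / N) : ‖a * b - 1‖ ≤ (x + y + x * y) / N := by
  have hNr : (1 : ℝ) ≤ N := by exact_mod_cast hN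
  have h1 : a * b - 1 = (a - 1) * (b - 1) + (a - 1) + (b - 1) := by ring
  rw [h1]
  have h2 : ‖(a - 1) * (b - 1)‖ ≤ x * y / N := by
    rw [norm_mul]
    calc ‖a - 1‖ * ‖b - 1‖ ≤ (x / N) * (y / N) :=
          mul_le_mul ha hb (norm_nonneg _) (by positivity)
      _ = x * y / N / N := by ring
      _ ≤ x * y / N := div_le_self (by positivity) hNr
  calc _ ≤ ‖(a - 1) * (b - 1)‖ + ‖a - 1‖ + ‖b - 1‖ := norm_add₃_le
    _ ≤ x * y / N + x / N + y / N := by linarith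
    _ = _ := by ring

lemma norm_exp_sub_one {w : ℂ} : ‖Complex.exp w - 1‖ ≤ ‖w‖ * Real.exp ‖w‖ := by
  have h := Complex.norm_exp_sub_sum_le_norm_mul_exp w 1
  simpa using h

/-! ### bounds -/

lemma half_le_sin {a : ℝ} (h1 : Real.pi / 6 ≤ a) (h2 : a ≤ 5 * Real.pi / 6) : 1 / 2 ≤ Real.sin a := by
  have hpi := Real.pi_pos
  rw [← Real.sin_pi_div_six]
  rcases le_total a (Real.pi / 2) with h | h
  · exact Real.sin_le_sin_of_le_of_le_pi_div_two (by linarith) h h1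
  · rw [← Real.sin_pi_sub a]
    exact Real.sin_le_sin_of_le_of_le_pi_div_two (by linarith) (by linarith) (by linarith)

lemma norm_sin_ge {x : ℂ} (h1 : 1 / 6 ≤ x.re) (h2 : x.re ≤ 5 / 6) : 1 / 2 ≤ ‖Complex.sin (Real.pi * x)‖ := by
  have hpi := Real.pi_pos
  have hs : 1 / 2 ≤ Real.sin (Real.pi * x.re) := half_le_sin (by nlinarith) (by nlinarith)
  have hre : (Complex.sin (Real.pi * x)).re = Real.sin (Real.pi * x.re) * Real.cosh (Real.pi * x.im) := by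
    have e : (Real.pi * x : ℂ) = ((Real.pi * x.re : ℝ) : ℂ) + ((Real.pi * x.im : ℝ) : ℂ) * Complex.I := by
      apply Complex.ext <;> simp
    rw [e, Complex.sin_add_mul_I]
    simp [← Complex.ofReal_sin, ← Complex.ofReal_cosh, ← Complex.ofReal_cos, ← Complex.ofReal_sinh,
      -Complex.ofReal_mul]
  have h3 := Complex.re_le_norm (Complex.sin (Real.pi * x))
  rw [hre] at h3
  have h4 := Real.one_le_cosh (Real.pi * x.im)
  nlinarith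

lemma ct_bd {x : ℂ} (h1 : 1 / 6 ≤ x.re) (h2 : x.re ≤ 5 / 6) (h3 : |x.im| ≤ 1 / 4) : ‖ct x‖ ≤ 20 := by
  have hpi := Real.pi_pos
  have hpi2 := Real.pi_lt_d2
  have hs := norm_sin_ge h1 h2
  have him : |Real.pi * x.im| ≤ 1 := by
    rw [abs_mul, abs_of_pos hpi]
    nlinarith [abs_nonneg x.im]
  have hc : ‖Complex.cos (Real.pi * x)‖ ≤ 3 := by
    have e : Complex.cos (Real.pi * x) =
      (Complex.exp (Real.pi * x * Complex.I) + Complex.exp (-(Real.pi * x) * Complex.I)) / 2 := rfl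
    rw [e, norm_div, Complex.norm_ofNat, div_le_iff₀ (by norm_num)]
    refine (norm_add_le _ _).trans ?_
    have r1 : ((Real.pi * x : ℂ) * Complex.I).re = -(Real.pi * x.im) := by simp
    have r2 : (-(Real.pi * x : ℂ) * Complex.I).re = Real.pi * x.im := by simp
    rw [Complex.norm_exp, Complex.norm_exp, r1, r2]
    have he := Real.exp_one_lt_d9
    have b1 : Real.exp (-(Real.pi * x.im)) ≤ Real.exp 1 :=
      Real.exp_le_exp.2 ((neg_le_abs _).trans him)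
    have b2 : Real.exp (Real.pi * x.im) ≤ Real.exp 1 := Real.exp_le_exp.2 ((le_abs_self _).trans him)
    linarith
  unfold ct
  rw [norm_mul, norm_div, Complex.norm_real, Real.norm_of_nonneg hpi.le]
  have h4 : ‖Complex.cos (Real.pi * x)‖ / ‖Complex.sin (Real.pi * x)‖ ≤ 6 := by
    rw [div_le_iff₀ (by linarith)]
    linarith
  calc Real.pi * (‖Complex.cos (Real.pi * x)‖ / ‖Complex.sin (Real.pi * x)‖) ≤ Real.pi * 6 :=
        mul_le_mul_of_nonneg_left h4 hpi.le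
    _ ≤ 20 := by linarith

/-- the region -/
def Rg : Set ℂ := {x | 1 / 6 ≤ x.re ∧ x.re ≤ 5 / 6 ∧ |x.im| ≤ 1 / 4}

lemma Rg_St {x : ℂ} (hx : x ∈ Rg) : x ∈ St := ⟨by linarith [hx.1], by linarith [hx.2.1]⟩

lemma Rg_convex : Convex ℝ Rg := by
  have e : Rg = {x : ℂ | 1 / 6 ≤ x.re} ∩ ({x : ℂ | x.re ≤ 5 / 6} ∩
      ({x : ℂ | -(1 / 4) ≤ x.im} ∩ {x : ℂ | x.im ≤ 1 / 4})) := by
    ext x
    simp only [Rg, Set.mem_setOf_eq, Set.mem_inter_iff, abs_le]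
  rw [e]
  exact (convex_halfSpace_re_ge _).inter ((convex_halfSpace_re_le _).inter
    ((convex_halfSpace_im_ge _).inter (convex_halfSpace_im_le _)))

lemma bb_lip (hLC : S_LC) {x y : ℂ} (hx : x ∈ Rg) (hy : y ∈ Rg) : ‖bb y - bb x‖ ≤ 20 * ‖y - x‖ := by
  obtain ⟨-, -, -, l4, -⟩ := hLC
  exact Rg_convex.norm_image_sub_le_of_norm_hasDerivWithin_le
    (fun z hz => (l4 z (Rg_St hz)).hasDerivWithinAt) (fun z hz => ct_bd hz.1 hz.2.1 hz.2.2) hx hy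

lemma LC_tay (hLC : S_LC) {x y : ℂ} (hx : x ∈ Rg) (hy : y ∈ Rg) :
    ‖LC y - LC x - bb x * (y - x)‖ ≤ 20 * ‖y - x‖ ^ 2 := by
  have hlip := fun z (hz : z ∈ Rg) => bb_lip hLC hx hz
  obtain ⟨l1, -, -, l4, -⟩ := hLC
  have hs : Convex ℝ (Rg ∩ Metric.closedBall x ‖y - x‖) := Rg_convex.inter (convex_closedBall _ _)
  have h := hs.norm_image_sub_le_of_norm_hasDerivWithin_le
    (f := fun z => LC z - bb x * z) (f' := fun z => bb z - bb x) (C := 20 * ‖y - x‖)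
    (fun z hz => by
      have h1 := (l1 z (Rg_St hz.1)).sub ((hasDerivAt_id z).const_mul (bb x))
      rw [mul_one] at h1
      exact h1.hasDerivWithinAt) (fun z hz => by
      refine (hlip z hz.1).trans ?_
      have := hz.2
      rw [mem_closedBall_iff_norm] at this
      linarith) (x := x) (y := y) ⟨hx, by simp⟩ ⟨hy, by simp [dist_eq_norm]⟩
  have e : LC y - bb x * y - (LC x - bb x * x) = LC y - LC x - bb x * (y - x) := by ring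
  rw [e] at h
  calc _ ≤ _ := h
    _ = _ := by ring

lemma exp_bb {x : ℂ} (hx : x ∈ Rg) : Complex.exp (bb x) = 2 * Complex.sin (Real.pi * x) := by
  unfold bb
  rw [Complex.exp_log]
  have := norm_sin_ge hx.1 hx.2.1
  have h2 : Complex.sin (Real.pi * x) ≠ 0 := by
    intro h
    rw [h, norm_zero] at this
    linarith
  exact mul_ne_zero two_ne_zero h2

/-! ### the arguments -/

section
variable {ξ ζ : ℂ}

lemma abs_re_lt {z : ℂ} {r : ℝ} (h : ‖z‖ < r) : |z.re| < r := (Complex.abs_re_le_norm z).trans_lt h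
lemma abs_im_lt {z : ℂ} {r : ℝ} (h : ‖z‖ < r) : |z.im| < r := (Complex.abs_im_le_norm z).trans_lt h

/-- bounds for the coordinates -/
lemma coord (h1 : ‖ξ - 1 / 4‖ < 1 / 16) (h2 : ‖ζ‖ < 1 / 16) :
    3 / 16 < ξ.re ∧ ξ.re < 5 / 16 ∧ |ξ.im| < 1 / 16 ∧ -(1 / 16) < ζ.re ∧ ζ.re < 1 / 16 ∧
      |ζ.im| < 1 / 16 := by
  have a1 := abs_lt.1 (abs_re_lt h1)
  have a2 := abs_im_lt h1
  have a3 := abs_lt.1 (abs_re_lt h2)
  have a4 := abs_im_lt h2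
  have e1 : (ξ - 1 / 4).re = ξ.re - 1 / 4 := by simp
  have e2 : (ξ - 1 / 4).im = ξ.im := by simp
  rw [e1] at a1
  rw [e2] at a2
  exact ⟨by linarith, by linarith, a2, a3.1, a3.2, a4⟩

lemma re1 : (1 / 2 - ζ / 2 - ξ : ℂ).re = 1 / 2 - ζ.re / 2 - ξ.re := by simp
lemma re2 : (1 / 2 + ζ / 2 - ξ : ℂ).re = 1 / 2 + ζ.re / 2 - ξ.re := by simp
lemma im1 : (1 / 2 - ζ / 2 - ξ : ℂ).im = -(ζ.im / 2) - ξ.im := by simp
lemma im2 : (1 / 2 + ζ / 2 - ξ : ℂ).im = ζ.im / 2 - ξ.im := by simp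

lemma mem0 (h1 : ‖ξ - 1 / 4‖ < 1 / 16) : ξ ∈ Rg := by
  obtain ⟨a, b, c, -, -, -⟩ := coord h1 (show ‖(0 : ℂ)‖ < 1 / 16 by simp)
  exact ⟨by linarith, by linarith, by linarith⟩

lemma mem1 (h1 : ‖ξ - 1 / 4‖ < 1 / 16) (h2 : ‖ζ‖ < 1 / 16) :
    (1 / 16 ≤ (1 / 2 - ζ / 2 - ξ : ℂ).re ∧ (1 / 2 - ζ / 2 - ξ : ℂ).re ≤ 15 / 16) ∧
    (1 / 16 ≤ (1 / 2 + ζ / 2 - ξ : ℂ).re ∧ (1 / 2 + ζ / 2 - ξ : ℂ).re ≤ 15 / 16) := by
  obtain ⟨a, b, -, d, e, -⟩ := coord h1 h2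
  rw [re1, re2]
  exact ⟨⟨by linarith, by linarith⟩, ⟨by linarith, by linarith⟩⟩

lemma memS (h1 : ‖ξ - 1 / 4‖ < 1 / 16) (h2 : ‖ζ‖ < 1 / 16) :
    ξ ∈ St ∧ 1 / 2 - ζ / 2 - ξ ∈ St ∧ 1 / 2 + ζ / 2 - ξ ∈ St := by
  obtain ⟨h3, h4⟩ := mem1 h1 h2
  exact ⟨Rg_St (mem0 h1), ⟨by linarith [h3.1], by linarith [h3.2]⟩, ⟨by linarith [h4.1], by linarith [h4.2]⟩⟩

/-- the shifted point -/
lemma mem3 (h1 : ‖ξ - 1 / 4‖ < 1 / 16) {N : ℕ} (hN : 1 ≤ N) : ξ + 1 / (2 * N) ∈ Rg ∧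
    (ξ + 1 / (2 * N) : ℂ) ∈ St ∧ 1 / 16 ≤ (ξ + 1 / (2 * N) : ℂ).re ∧
    (ξ + 1 / (2 * N) : ℂ).re ≤ 15 / 16 := by
  obtain ⟨a, b, c, -, -, -⟩ := coord h1 (show ‖(0 : ℂ)‖ < 1 / 16 by simp)
  have hNr : (1 : ℝ) ≤ N := by exact_mod_cast hN
  have e : (1 / (2 * N) : ℂ) = ((1 / (2 * N) : ℝ) : ℂ) := by push_cast; rfl
  have h0 : (0 : ℝ) ≤ 1 / (2 * N) := by positivity
  have h2 : (1 : ℝ) / (2 * N) ≤ 1 / 2 := by
    rw [div_le_div_iff₀ (by positivity) (by norm_num)]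
    linarith
  have hre : (ξ + 1 / (2 * N) : ℂ).re = ξ.re + 1 / (2 * N) := by rw [e, Complex.add_re, Complex.ofReal_re]
  have him : (ξ + 1 / (2 * N) : ℂ).im = ξ.im := by rw [e, Complex.add_im, Complex.ofReal_im, add_zero]
  have h3 : ξ + 1 / (2 * N) ∈ Rg := ⟨by rw [hre]; linarith, by rw [hre]; linarith, by rw [him]; linarith⟩
  exact ⟨h3, Rg_St h3, by rw [hre]; linarith, by rw [hre]; linarith⟩

end

/-! ### derivatives -/

section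
variable {ξ ζ : ℂ}

lemma der0 (ξ a : ℂ) : HasDerivAt (fun t : ℂ => ξ + t * a) a 0 := by
  have := ((hasDerivAt_id (0 : ℂ)).mul_const a).const_add ξ
  simpa using this

lemma der1 (ξ ζ a b : ℂ) : HasDerivAt (fun t : ℂ => 1 / 2 - (ζ + t * b) / 2 - (ξ + t * a)) (-(b / 2) - a) 0 := by
  have := (((der0 ζ b).div_const 2).const_sub (1 / 2)).sub (der0 ξ a)
  exact this

lemma der2 (ξ ζ a b : ℂ) : HasDerivAt (fun t : ℂ => 1 / 2 + (ζ + t * b) / 2 - (ξ + t * a)) (b / 2 - a) 0 := by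
  have := (((der0 ζ b).div_const 2).const_add (1 / 2)).sub (der0 ξ a)
  exact this

variable {f f' : ℂ → ℂ}

lemma der_comp0 (hf : ∀ x ∈ St, HasDerivAt f (f' x) x) (h : ξ ∈ St) (a : ℂ) :
    HasDerivAt (fun t : ℂ => f (ξ + t * a)) (f' ξ * a) 0 := by
  have h1 := hf ξ h
  have e : ξ = (fun t : ℂ => ξ + t * a) 0 := by simp
  rw [e] at h1
  have h2 := h1.comp 0 (der0 ξ a)
  simp only [zero_mul, add_zero] at h2
  exact h2

lemma der_comp1 (hf : ∀ x ∈ St, HasDerivAt f (f' x) x) (h : 1 / 2 - ζ / 2 - ξ ∈ St) (a b : ℂ) :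
    HasDerivAt (fun t : ℂ => f (1 / 2 - (ζ + t * b) / 2 - (ξ + t * a)))
      (f' (1 / 2 - ζ / 2 - ξ) * (-(b / 2) - a)) 0 := by
  have h1 := hf _ h
  have e : 1 / 2 - ζ / 2 - ξ = (fun t : ℂ => 1 / 2 - (ζ + t * b) / 2 - (ξ + t * a)) 0 := by simp
  rw [e] at h1
  have h2 := h1.comp 0 (der1 ξ ζ a b)
  simp only [zero_mul, add_zero] at h2
  exact h2

lemma der_comp2 (hf : ∀ x ∈ St, HasDerivAt f (f' x) x) (h : 1 / 2 + ζ / 2 - ξ ∈ St) (a b : ℂ) :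
    HasDerivAt (fun t : ℂ => f (1 / 2 + (ζ + t * b) / 2 - (ξ + t * a)))
      (f' (1 / 2 + ζ / 2 - ξ) * (b / 2 - a)) 0 := by
  have h1 := hf _ h
  have e : 1 / 2 + ζ / 2 - ξ = (fun t : ℂ => 1 / 2 + (ζ + t * b) / 2 - (ξ + t * a)) 0 := by simp
  rw [e] at h1
  have h2 := h1.comp 0 (der2 ξ ζ a b)
  simp only [zero_mul, add_zero] at h2
  exact h2

lemma hh_der (hLC : S_LC) (h1 : ‖ξ - 1 / 4‖ < 1 / 16) (h2 : ‖ζ‖ < 1 / 16) (a b : ℂ) :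
    HasDerivAt (fun t : ℂ => HH (ξ + t * a) (ζ + t * b)) (a * Pool.Agent.Q99.KN.h1 ξ ζ + b * Pool.Agent.Q99.KN.h2 ξ ζ) 0 ∧
    HasDerivAt (fun t : ℂ => Pool.Agent.Q99.KN.h1 (ξ + t * a) (ζ + t * b)) (a * h11 ξ ζ + b * h12 ξ ζ) 0 ∧
    HasDerivAt (fun t : ℂ => Pool.Agent.Q99.KN.h2 (ξ + t * a) (ζ + t * b)) (a * h12 ξ ζ + b * h22 ξ ζ) 0 := by
  obtain ⟨l1, -, -, l4, -⟩ := hLC
  obtain ⟨s0, s1, s2⟩ := memS h1 h2
  have L0 := der_comp0 l1 s0 a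
  have L1 := der_comp1 l1 s1 a b
  have L2 := der_comp2 l1 s2 a b
  have B0 := der_comp0 l4 s0 a
  have B1 := der_comp1 l4 s1 a b
  have B2 := der_comp2 l4 s2 a b
  refine ⟨?_, ?_, ?_⟩
  · refine (((L0.const_mul 2).add L1).add L2).neg.congr_deriv ?_
    unfold Pool.Agent.Q99.KN.h1 Pool.Agent.Q99.KN.h2
    ring
  · refine ((B1.add B2).sub (B0.const_mul 2)).congr_deriv ?_
    unfold h11 h12
    ring
  · refine ((B1.sub B2).div_const 2).congr_deriv ?_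
    unfold h12 h22
    ring

end

/-! ### asymptotics -/

lemma asy (hLC : S_LC) (hGAM : S_GAM) : ∃ C : ℝ, ∀ N : ℕ, 1 ≤ N → ∀ ξ ζ : ℂ, ‖ξ - 1 / 4‖ < 1 / 16 →
    ‖ζ‖ < 1 / 16 →
    ‖WW N ξ ζ * (2 * N * Complex.sin (Real.pi * ξ)) * Complex.exp (-(N * HH ξ ζ)) - 1‖ ≤ C / N := by
  obtain ⟨-, -, g3, g4⟩ := hGAM hLC
  obtain ⟨C1, hC1⟩ := g3 (1 / 16) (by norm_num)
  obtain ⟨C, hC⟩ : ∃ C, C = max C1 0 := ⟨_, rfl⟩
  have hC0 : 0 ≤ C := by rw [hC]; exact le_max_right _ _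
  have hl2 := hLC.2.1
  -- the inverse of the correction
  have hinv : ∀ N : ℕ, 1 ≤ N → ∀ x : ℂ, 1 / 16 ≤ x.re → x.re ≤ 15 / 16 →
      ‖(Gm N x)⁻¹ * Complex.exp (N * LC x) - 1‖ ≤ C / N := by
    intro N hN x hx1 hx2
    have hNr : (0 : ℝ) < N := by exact_mod_cast hN
    have hx : x ∈ St := ⟨by linarith, by linarith⟩
    have e1 : (Gm N x)⁻¹ = Gm N (1 - x) := inv_eq_of_mul_eq_one_right (g4 N x hx)
    have e2 : (N * LC x : ℂ) = -(N * LC (1 - x)) := by rw [hl2 x hx]; ring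
    rw [e1, e2]
    refine (hC1 N hN (1 - x) (by rw [Complex.sub_re, Complex.one_re]; linarith)
      (by rw [Complex.sub_re, Complex.one_re]; linarith)).trans ?_
    rw [hC]
    exact div_le_div_of_nonneg_right (le_max_left _ _) hNr.le
  obtain ⟨c2, hc2⟩ : ∃ c : ℝ, c = C + C + C * C := ⟨_, rfl⟩
  obtain ⟨c4, hc4⟩ : ∃ c : ℝ, c = c2 + c2 + c2 * c2 := ⟨_, rfl⟩
  obtain ⟨cw, hcw⟩ : ∃ c : ℝ, c = 10 * Real.exp 10 := ⟨_, rfl⟩
  have hc20 : 0 ≤ c2 := by rw [hc2]; positivity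
  have hc40 : 0 ≤ c4 := by rw [hc4]; positivity
  have hcw0 : 0 ≤ cw := by rw [hcw]; positivity
  refine ⟨c4 + cw + c4 * cw, fun N hN ξ ζ h1 h2 => ?_⟩
  have hNr : (1 : ℝ) ≤ N := by exact_mod_cast hN
  have hNc : (N : ℂ) ≠ 0 := by
    have : (N : ℝ) ≠ 0 := by linarith
    exact_mod_cast this
  obtain ⟨m1, m2⟩ := mem1 h1 h2
  obtain ⟨m3, m3S, m31, m32⟩ := mem3 h1 hN
  obtain ⟨-, s1, s2⟩ := memS h1 h2
  have n1 := hinv N hN _ m1.1 m1.2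
  have n2 := hinv N hN _ m2.1 m2.2
  have n3 := hinv N hN _ m31 m32
  have p1 := near_mul hN hC0 hC0 n1 n2
  have p2 := near_mul hN hC0 hC0 n3 n3
  rw [← hc2] at p1 p2
  have p3 := near_mul hN hc20 hc20 p1 p2
  rw [← hc4] at p3
  -- the Taylor factor
  obtain ⟨w, hw⟩ : ∃ w, w = bb ξ - 2 * N * (LC (ξ + 1 / (2 * N)) - LC ξ) := ⟨_, rfl⟩
  have hwb : ‖w‖ ≤ 10 / N := by
    have ht := LC_tay hLC (mem0 h1) m3
    rw [add_sub_cancel_left] at ht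
    have e1 : w = -(2 * N * (LC (ξ + 1 / (2 * N)) - LC ξ - bb ξ * (1 / (2 * N)))) := by
      rw [hw]
      field_simp
      ring
    have e2 : ‖(1 / (2 * N) : ℂ)‖ = 1 / (2 * N) := by
      rw [norm_div, norm_mul, norm_one, Complex.norm_ofNat, Complex.norm_natCast]
    rw [e2] at ht
    rw [e1, norm_neg, norm_mul, norm_mul, Complex.norm_ofNat, Complex.norm_natCast]
    calc 2 * (N : ℝ) * ‖LC (ξ + 1 / (2 * N)) - LC ξ - bb ξ * (1 / (2 * N))‖ ≤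
        2 * (N : ℝ) * (20 * (1 / (2 * N)) ^ 2) := by gcongr
      _ = 10 / N := by field_simp; norm_num
  have p4 : ‖Complex.exp w - 1‖ ≤ cw / N := by
    refine norm_exp_sub_one.trans ?_
    have h3 : ‖w‖ ≤ 10 := hwb.trans (div_le_self (by norm_num) hNr)
    rw [hcw]
    calc ‖w‖ * Real.exp ‖w‖ ≤ 10 / N * Real.exp 10 := by gcongr
      _ = _ := by ring
  have p5 := near_mul hN hc40 hcw0 p3 p4
  refine le_of_eq_of_le ?_ p5
  congr 2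
  have hexp : Complex.exp w = 2 * Complex.sin (Real.pi * ξ) * Complex.exp (N * LC ξ) ^ 2 *
      (Complex.exp (N * LC (ξ + 1 / (2 * N))) ^ 2)⁻¹ := by
    rw [hw, ← exp_bb (mem0 h1), ← Complex.exp_nat_mul, ← Complex.exp_nat_mul, ← Complex.exp_neg,
      ← Complex.exp_add, ← Complex.exp_add]
    congr 1
    push_cast
    ring
  have hH : Complex.exp (-(N * HH ξ ζ)) = Complex.exp (N * LC ξ) ^ 2 *
      Complex.exp (N * LC (1 / 2 - ζ / 2 - ξ)) * Complex.exp (N * LC (1 / 2 + ζ / 2 - ξ)) := by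
    unfold HH
    rw [← Complex.exp_nat_mul, ← Complex.exp_add, ← Complex.exp_add]
    congr 1
    push_cast
    ring
  rw [hexp, hH]
  unfold WW
  have g1 := Gm_ne g4 (N := N) s1
  have g2 := Gm_ne g4 (N := N) s2
  have g3' := Gm_ne g4 (N := N) m3S
  obtain ⟨G1, hG1⟩ : ∃ G, G = Gm N (1 / 2 - ζ / 2 - ξ) := ⟨_, rfl⟩
  obtain ⟨G2, hG2⟩ : ∃ G, G = Gm N (1 / 2 + ζ / 2 - ξ) := ⟨_, rfl⟩
  obtain ⟨G3, hG3⟩ : ∃ G, G = Gm N (ξ + 1 / (2 * N)) := ⟨_, rfl⟩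
  obtain ⟨E1, hE1⟩ : ∃ G, G = Complex.exp (N * LC (1 / 2 - ζ / 2 - ξ)) := ⟨_, rfl⟩
  obtain ⟨E2, hE2⟩ : ∃ G, G = Complex.exp (N * LC (1 / 2 + ζ / 2 - ξ)) := ⟨_, rfl⟩
  obtain ⟨E3, hE3⟩ : ∃ G, G = Complex.exp (N * LC (ξ + 1 / (2 * N))) := ⟨_, rfl⟩
  have hE3n : E3 ≠ 0 := by rw [hE3]; exact Complex.exp_ne_zero _
  rw [← hG1] at g1
  rw [← hG2] at g2
  rw [← hG3] at g3'
  rw [← hG1, ← hG2, ← hG3, ← hE1, ← hE2, ← hE3]
  field_simp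

/-! ### holomorphy -/

lemma ww_diff (hLC : S_LC) (hGAM : S_GAM) (N : ℕ) (hN : 1 ≤ N) :
    DifferentiableOn ℂ (fun p : ℂ × ℂ => WW N p.1 p.2)
      (Metric.ball (1 / 4) (1 / 16) ×ˢ Metric.ball 0 (1 / 16)) := by
  obtain ⟨gd, -, -, g4⟩ := hGAM hLC
  have hNc : (N : ℂ) ≠ 0 := by
    have : N ≠ 0 := by omega
    exact_mod_cast this
  have hmem : ∀ p ∈ (Metric.ball (1 / 4 : ℂ) (1 / 16)) ×ˢ (Metric.ball (0 : ℂ) (1 / 16)),
      ‖p.1 - 1 / 4‖ < 1 / 16 ∧ ‖p.2‖ < 1 / 16 := by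
    intro p hp
    have h1 := hp.1
    have h2 := hp.2
    rw [mem_ball_iff_norm] at h1 h2
    rw [sub_zero] at h2
    exact ⟨h1, h2⟩
  unfold WW
  refine DifferentiableOn.inv ?_ ?_
  · refine DifferentiableOn.mul (DifferentiableOn.mul (DifferentiableOn.mul (differentiableOn_const _) ?_) ?_)
      (DifferentiableOn.pow ?_ 2)
    · refine DifferentiableOn.comp (g := Gm N) (f := fun p : ℂ × ℂ => 1 / 2 - p.2 / 2 - p.1) (t := St) (gd N hN) ?_ ?_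
      · fun_prop
      · intro p hp
        obtain ⟨h1, h2⟩ := hmem p hp
        exact (memS h1 h2).2.1
    · refine DifferentiableOn.comp (g := Gm N) (f := fun p : ℂ × ℂ => 1 / 2 + p.2 / 2 - p.1) (t := St) (gd N hN) ?_ ?_
      · fun_prop
      · intro p hp
        obtain ⟨h1, h2⟩ := hmem p hp
        exact (memS h1 h2).2.2
    · refine DifferentiableOn.comp (g := Gm N) (f := fun p : ℂ × ℂ => p.1 + 1 / (2 * N)) (t := St) (gd N hN) ?_ ?_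
      · fun_prop
      · intro p hp
        obtain ⟨h1, h2⟩ := hmem p hp
        exact (mem3 h1 hN).2.1
  · intro p hp
    obtain ⟨h1, h2⟩ := hmem p hp
    obtain ⟨-, s1, s2⟩ := memS h1 h2
    exact mul_ne_zero (mul_ne_zero (mul_ne_zero hNc (Gm_ne g4 s1)) (Gm_ne g4 s2))
      (pow_ne_zero _ (Gm_ne g4 (mem3 h1 hN).2.1))

theorem task_HH : S_HH := by
  intro hLC hGAM
  refine ⟨fun N ξ ζ => ?_, fun ξ ζ => ?_, ?_, ?_, fun ξ => ?_, ?_, ww_diff hLC hGAM, asy hLC hGAM⟩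
  · unfold WW
    rw [show (1 / 2 - -ζ / 2 - ξ : ℂ) = 1 / 2 + ζ / 2 - ξ by ring,
      show (1 / 2 + -ζ / 2 - ξ : ℂ) = 1 / 2 - ζ / 2 - ξ by ring]
    congr 1
    ring
  · unfold HH
    rw [show (1 / 2 - -ζ / 2 - ξ : ℂ) = 1 / 2 + ζ / 2 - ξ by ring,
      show (1 / 2 + -ζ / 2 - ξ : ℂ) = 1 / 2 - ζ / 2 - ξ by ring]
    ring
  · unfold HH H0
    have h := hLC.2.2.1 (1 / 4) (by norm_num) (by norm_num)
    have e : (((1 / 4 : ℝ)) : ℂ) = 1 / 4 := by push_cast; rfl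
    rw [e] at h
    rw [show (1 / 2 - 0 / 2 - 1 / 4 : ℂ) = 1 / 4 by norm_num,
      show (1 / 2 + 0 / 2 - 1 / 4 : ℂ) = 1 / 4 by norm_num, h]
    push_cast
    ring
  · unfold Pool.Agent.Q99.KN.h1
    rw [show (1 / 2 - 0 / 2 - 1 / 4 : ℂ) = 1 / 4 by norm_num,
      show (1 / 2 + 0 / 2 - 1 / 4 : ℂ) = 1 / 4 by norm_num]
    ring
  · unfold Pool.Agent.Q99.KN.h2
    rw [show (1 / 2 - 0 / 2 - ξ : ℂ) = 1 / 2 + 0 / 2 - ξ by ring]
    ring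
  · intro ξ ζ h1 h2 a b
    exact hh_der hLC h1 h2 a b

end Pool.Agent.Q210.KN
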