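import Pool.Agent.Q210.KN.Bas

/-!
# Project KN (helper99), job K1: the resolvent of the Casimir operator
-/

set_option autoImplicit false

namespace Pool.Agent.Q210.KN

open Matrix Finset
open Pool.Agent.H550R3.Jones (W)
open Pool.Agent.W715.VC (rt)
open Pool.Agent.Q191.FT (Cas)
open Pool.Agent.Q99.FAL
open Pool.Agent.Q99.KN

variable {N : ℕ}

/-- the vectors in the sum -/
noncomputable def V (N : ℕ) (i j : ℤ) (A : ℕ) (β C : ℤ) : Fin N × Fin N → ℂ :=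
  Uv N (i - (N - 1 - A - β - C)) (j + β)

/-- the index set -/
def Tr (N A : ℕ) : Finset (ℕ × ℕ) := ((range N) ×ˢ (range N)).filter fun p => A + p.1 + p.2 < N

lemma mem_Tr {A : ℕ} {p : ℕ × ℕ} : p ∈ Tr N A ↔ A + p.1 + p.2 < N := by
  unfold Tr
  rw [mem_filter, mem_product, mem_range, mem_range]
  constructor
  · exact fun h => h.2
  · intro h
    exact ⟨⟨by omega, by omega⟩, h⟩

lemma sn_add_int (hN : 0 < N) (x : ℂ) (e : ℤ) : sn N (x + N * e) = (-1) ^ e * sn N x := by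
  have hNc : (N : ℂ) ≠ 0 := by exact_mod_cast hN.ne'
  unfold sn
  rw [show (Real.pi : ℂ) * (x + N * e) / N = Real.pi * x / N + e * Real.pi by field_simp,
    Complex.sin_antiperiodic.add_int_mul_eq, Int.cast_negOnePow]
  ring

lemma sn_sq_int (hN : 0 < N) (x y : ℂ) (e : ℤ) :
    sn N (x + N * e) * sn N (y + N * e) = sn N x * sn N y := by
  rw [sn_add_int hN, sn_add_int hN]
  have h : ((-1 : ℂ) ^ e) * (-1) ^ e = 1 := by
    rw [← mul_zpow]; simp
  linear_combination (sn N x * sn N y) * h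

lemma cas_V (hCU : S_CU) (hEU : S_EU) (hN : 0 < N) {i j e : ℤ} {A : ℕ} (hA : j - i - 1 = A + N * e)
    (β C : ℤ) : Cas (rt N) (W (rt N) N) *ᵥ V N i j A β C =
      (2 * Complex.cos (Real.pi * (2 * (C : ℂ) + 1) / N)) • V N i j A β C -
        sn N C ^ 2 • (V N i j A β (C - 1) + V N i j A (β + 1) (C - 1)) -
        (sn N C * sn N (C - 1)) • V N i j A (β + 1) (C - 2) := by
  have hNc : (N : ℂ) ≠ 0 := by exact_mod_cast hN.ne'
  unfold V
  rw [hCU hEU N hN]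
  have hkl : ((i - (N - 1 - A - β - C) : ℤ) : ℂ) - ((j + β : ℤ) : ℂ) = C + N * ((-1 - e : ℤ) : ℂ) := by
    have h1 : ((i - (N - 1 - A - β - C) : ℤ)) - ((j + β : ℤ)) = C + N * ((-1 - e : ℤ)) := by
      linear_combination -hA
    have h2 := congrArg (Int.cast (R := ℂ)) h1
    push_cast at h2 ⊢
    linear_combination h2
  have hkl1 : ((i - (N - 1 - A - β - C) : ℤ) : ℂ) - ((j + β : ℤ) : ℂ) - 1 =
      (C - 1) + N * ((-1 - e : ℤ) : ℂ) := by rw [hkl]; ring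
  rw [hkl1, hkl, sn_sq_int hN, pow_two, sn_sq_int hN, ← pow_two]
  have hcos : Complex.cos (Real.pi * (2 * ((C : ℂ) + N * ((-1 - e : ℤ) : ℂ)) + 1) / N) =
      Complex.cos (Real.pi * (2 * (C : ℂ) + 1) / N) := by
    rw [show (Real.pi : ℂ) * (2 * ((C : ℂ) + N * ((-1 - e : ℤ) : ℂ)) + 1) / N =
      Real.pi * (2 * (C : ℂ) + 1) / N + ((-1 - e : ℤ) : ℂ) * (2 * Real.pi) by field_simp; ring]
    exact (Complex.cos_periodic.int_mul (-1 - e)) _
  rw [hcos]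
  have e1 : i - ((N : ℤ) - 1 - A - β - C) - 1 = i - ((N : ℤ) - 1 - A - β - (C - 1)) := by ring
  have e2 : i - ((N : ℤ) - 1 - A - β - C) = i - ((N : ℤ) - 1 - A - (β + 1) - (C - 1)) := by ring
  have e3 : i - ((N : ℤ) - 1 - A - β - C) - 1 = i - ((N : ℤ) - 1 - A - (β + 1) - (C - 2)) := by ring
  have e4 : j + β + 1 = j + (β + 1) := by ring
  rw [e4]
  congr 2
  · congr 1
    congr 1
    · rw [e1]
    · rw [← e2]
  · rw [← e3]

lemma sum_S1 (A : ℕ) (w : ℕ → ℕ → ℂ) (v : ℤ → ℤ → Fin N × Fin N → ℂ) :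
    ∑ p ∈ Tr N A, (w p.1 p.2 * sn N (p.2 : ℂ) ^ 2) • v p.1 ((p.2 : ℤ) - 1) =
    ∑ p ∈ Tr N A, (if A + p.1 + p.2 + 1 < N then w p.1 (p.2 + 1) * sn N ((p.2 : ℂ) + 1) ^ 2 else 0) •
      v p.1 p.2 := by
  have hC : ∀ p : ℕ × ℕ, (w p.1 p.2 * sn N (p.2 : ℂ) ^ 2) • v p.1 ((p.2 : ℤ) - 1) ≠ 0 → 1 ≤ p.2 := by
    intro p hp
    by_contra h
    apply hp
    rw [show p.2 = 0 by omega, Nat.cast_zero, sn_zero]
    simp
  have key : ∀ (a b : ℕ), A + a + (b + 1) < N →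
      (w a (b + 1) * sn N ((b + 1 : ℕ) : ℂ) ^ 2) • v a (((b + 1 : ℕ) : ℤ) - 1) =
      (if A + a + b + 1 < N then w a (b + 1) * sn N ((b : ℂ) + 1) ^ 2 else 0) • v a b := by
    intro a b h
    rw [if_pos (by omega)]
    push_cast
    rw [add_sub_cancel_right]
  refine sum_bij_ne_zero (fun p _ _ => (p.1, p.2 - 1)) ?_ ?_ ?_ ?_
  · intro p hp h0
    rw [mem_Tr] at hp ⊢
    simp only
    omega
  · intro p hp h0 q hq h1 h
    have := hC p h0
    have := hC q h1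
    rw [Prod.mk.injEq] at h
    ext
    · exact h.1
    · omega
  · intro p hp h0
    rw [mem_Tr] at hp
    by_cases hc : A + p.1 + p.2 + 1 < N
    · refine ⟨(p.1, p.2 + 1), mem_Tr.2 (by simp only; omega), ?_, by simp⟩
      simp only
      rw [key p.1 p.2 (by omega)]
      exact h0
    · rw [if_neg hc, zero_smul] at h0
      exact absurd rfl h0
  · intro p hp h0
    have h1 := hC p h0
    rw [mem_Tr] at hp
    have h2 := key p.1 (p.2 - 1) (by omega)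
    rw [show p.2 - 1 + 1 = p.2 by omega] at h2
    simp only
    rw [show p.2 - 1 + 1 = p.2 by omega]
    exact h2

lemma sum_S2 (A : ℕ) (w : ℕ → ℕ → ℂ) (v : ℤ → ℤ → Fin N × Fin N → ℂ) :
    ∑ p ∈ Tr N A, (w p.1 p.2 * sn N (p.2 : ℂ) ^ 2) • v (p.1 + 1) ((p.2 : ℤ) - 1) =
    ∑ p ∈ Tr N A, (if 1 ≤ p.1 then w (p.1 - 1) (p.2 + 1) * sn N ((p.2 : ℂ) + 1) ^ 2 else 0) •
      v p.1 p.2 := by
  have hC : ∀ p : ℕ × ℕ, (w p.1 p.2 * sn N (p.2 : ℂ) ^ 2) • v (p.1 + 1) ((p.2 : ℤ) - 1) ≠ 0 →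
      1 ≤ p.2 := by
    intro p hp
    by_contra h
    apply hp
    rw [show p.2 = 0 by omega, Nat.cast_zero, sn_zero]
    simp
  have key : ∀ (a b : ℕ), (w a (b + 1) * sn N ((b + 1 : ℕ) : ℂ) ^ 2) • v ((a : ℤ) + 1) (((b + 1 : ℕ) : ℤ) - 1) =
      (if 1 ≤ a + 1 then w (a + 1 - 1) (b + 1) * sn N ((b : ℂ) + 1) ^ 2 else 0) • v ((a + 1 : ℕ) : ℤ) b := by
    intro a b
    rw [if_pos (by omega)]
    push_cast
    rw [add_sub_cancel_right]
  refine sum_bij_ne_zero (fun p _ _ => (p.1 + 1, p.2 - 1)) ?_ ?_ ?_ ?_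
  · intro p hp h0
    have := hC p h0
    rw [mem_Tr] at hp ⊢
    simp only
    omega
  · intro p hp h0 q hq h1 h
    have := hC p h0
    have := hC q h1
    rw [Prod.mk.injEq] at h
    ext
    · omega
    · omega
  · intro p hp h0
    rw [mem_Tr] at hp
    by_cases hc : 1 ≤ p.1
    · refine ⟨(p.1 - 1, p.2 + 1), mem_Tr.2 (by simp only; omega), ?_, ?_⟩
      · simp only
        rw [key (p.1 - 1) p.2, show p.1 - 1 + 1 = p.1 by omega]
        exact h0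
      · simp only [Nat.add_sub_cancel]
        ext
        · simp only; omega
        · simp only
    · rw [if_neg hc, zero_smul] at h0
      exact absurd rfl h0
  · intro p hp h0
    have h1 := hC p h0
    have h2 := key p.1 (p.2 - 1)
    rw [show p.2 - 1 + 1 = p.2 by omega] at h2
    simp only
    rw [show p.2 - 1 + 1 = p.2 by omega]
    exact h2

lemma sum_S3 (A : ℕ) (w : ℕ → ℕ → ℂ) (v : ℤ → ℤ → Fin N × Fin N → ℂ) :
    ∑ p ∈ Tr N A, (w p.1 p.2 * (sn N (p.2 : ℂ) * sn N ((p.2 : ℂ) - 1))) • v (p.1 + 1) ((p.2 : ℤ) - 2) =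
    ∑ p ∈ Tr N A, (if 1 ≤ p.1 ∧ A + p.1 + p.2 + 1 < N then
      w (p.1 - 1) (p.2 + 2) * (sn N ((p.2 : ℂ) + 2) * sn N ((p.2 : ℂ) + 1)) else 0) • v p.1 p.2 := by
  have hC : ∀ p : ℕ × ℕ, (w p.1 p.2 * (sn N (p.2 : ℂ) * sn N ((p.2 : ℂ) - 1))) •
      v (p.1 + 1) ((p.2 : ℤ) - 2) ≠ 0 → 2 ≤ p.2 := by
    intro p hp
    by_contra h
    apply hp
    rcases (show p.2 = 0 ∨ p.2 = 1 by omega) with h | h
    · rw [h, Nat.cast_zero, sn_zero]
      simp
    · rw [h, Nat.cast_one, sub_self, sn_zero]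
      simp
  have key : ∀ (a b : ℕ), A + a + (b + 2) < N →
      (w a (b + 2) * (sn N ((b + 2 : ℕ) : ℂ) * sn N (((b + 2 : ℕ) : ℂ) - 1))) •
        v ((a : ℤ) + 1) (((b + 2 : ℕ) : ℤ) - 2) =
      (if 1 ≤ a + 1 ∧ A + (a + 1) + b + 1 < N then w (a + 1 - 1) (b + 2) *
        (sn N ((b : ℂ) + 2) * sn N ((b : ℂ) + 1)) else 0) • v ((a + 1 : ℕ) : ℤ) b := by
    intro a b h
    rw [if_pos (by omega)]
    push_cast
    rw [add_sub_cancel_right, show (b : ℂ) + 2 - 1 = b + 1 by ring]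
  refine sum_bij_ne_zero (fun p _ _ => (p.1 + 1, p.2 - 2)) ?_ ?_ ?_ ?_
  · intro p hp h0
    have := hC p h0
    rw [mem_Tr] at hp ⊢
    simp only
    omega
  · intro p hp h0 q hq h1 h
    have := hC p h0
    have := hC q h1
    rw [Prod.mk.injEq] at h
    ext
    · omega
    · omega
  · intro p hp h0
    rw [mem_Tr] at hp
    by_cases hc : 1 ≤ p.1 ∧ A + p.1 + p.2 + 1 < N
    · refine ⟨(p.1 - 1, p.2 + 2), mem_Tr.2 (by simp only; omega), ?_, ?_⟩
      · simp only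
        rw [key (p.1 - 1) p.2 (by omega), show p.1 - 1 + 1 = p.1 by omega]
        exact h0
      · simp only [Nat.add_sub_cancel]
        ext
        · simp only; omega
        · simp only
    · rw [if_neg hc, zero_smul] at h0
      exact absurd rfl h0
  · intro p hp h0
    have h1 := hC p h0
    rw [mem_Tr] at hp
    have h2 := key p.1 (p.2 - 2) (by omega)
    rw [show p.2 - 2 + 2 = p.2 by omega] at h2
    simp only
    rw [show p.2 - 2 + 2 = p.2 by omega]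
    exact h2

lemma zu_eq (z : ℂ) (i j : ℤ) : zu N z i j =
    ∑ p ∈ Tr N (aA N i j), Wk N z (aA N i j) p.1 p.2 • V N i j (aA N i j) p.1 p.2 := by
  unfold zu Tr V
  rw [sum_filter, sum_product]

lemma aA_spec (hN : 0 < N) (i j : ℤ) : ∃ e : ℤ, j - i - 1 = aA N i j + N * e ∧ aA N i j < N := by
  have hN' : (N : ℤ) ≠ 0 := by exact_mod_cast hN.ne'
  have h1 := Int.emod_nonneg (j - i - 1) hN'
  have h2 := Int.emod_lt_of_pos (j - i - 1) (show (0 : ℤ) < N by exact_mod_cast hN)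
  have h3 : ((aA N i j : ℕ) : ℤ) = (j - i - 1) % N := by
    unfold aA
    exact Int.toNat_of_nonneg h1
  refine ⟨(j - i - 1) / N, ?_, ?_⟩
  · rw [h3]
    exact (Int.emod_add_mul_ediv (j - i - 1) N).symm
  · omega

/-- the eigenvalue as a product -/
lemma t_prod (hN : 0 < N) (z C : ℂ) : 2 * Complex.cos (Real.pi * (2 * C + 1) / N) - tz N z =
    sn N ((N - 1 + z) / 2 - C) * sn N ((N - 1 - z) / 2 - C) := by
  have hNc : (N : ℂ) ≠ 0 := by exact_mod_cast hN.ne'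
  rw [sn_mul]
  unfold cn tz
  rw [show ((N : ℂ) - 1 + z) / 2 - C - (((N : ℂ) - 1 - z) / 2 - C) = z by ring,
    show (Real.pi : ℂ) * ((((N : ℂ) - 1 + z) / 2 - C) + (((N : ℂ) - 1 - z) / 2 - C)) / N =
      Real.pi - Real.pi * (2 * C + 1) / N by field_simp; ring, Complex.cos_pi_sub]
  ring

theorem task_K1 : S_K1 := by
  intro hEU hPF hWR hCU N hN z i j
  obtain ⟨e, hA, hAN⟩ := aA_spec hN i j
  rw [zu_eq]
  obtain ⟨A, hAd⟩ : ∃ A, A = aA N i j := ⟨_, rfl⟩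
  rw [← hAd] at hA hAN ⊢
  obtain ⟨w, hw⟩ : ∃ w : ℕ → ℕ → ℂ, w = Wk N z A := ⟨_, rfl⟩
  obtain ⟨v, hv⟩ : ∃ v : ℤ → ℤ → Fin N × Fin N → ℂ, v = V N i j A := ⟨_, rfl⟩
  have hcas : ∀ p : ℕ × ℕ, Cas (rt N) (W (rt N) N) *ᵥ v p.1 p.2 =
      (2 * Complex.cos (Real.pi * (2 * (p.2 : ℂ) + 1) / N)) • v p.1 p.2 -
        sn N p.2 ^ 2 • (v p.1 ((p.2 : ℤ) - 1) + v (p.1 + 1) ((p.2 : ℤ) - 1)) -
        (sn N p.2 * sn N (p.2 - 1)) • v (p.1 + 1) ((p.2 : ℤ) - 2) := fun p => by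
    have := cas_V hCU hEU hN hA p.1 p.2
    rw [hv]
    rw [this]
    push_cast
    rfl
  rw [← hw, ← hv, Matrix.mulVec_sum]
  have h1 : ∑ p ∈ Tr N A, Cas (rt N) (W (rt N) N) *ᵥ (w p.1 p.2 • v p.1 p.2) =
      ∑ p ∈ Tr N A, (w p.1 p.2 * (2 * Complex.cos (Real.pi * (2 * (p.2 : ℂ) + 1) / N))) • v p.1 p.2 -
      ∑ p ∈ Tr N A, (w p.1 p.2 * sn N (p.2 : ℂ) ^ 2) • v p.1 ((p.2 : ℤ) - 1) -
      ∑ p ∈ Tr N A, (w p.1 p.2 * sn N (p.2 : ℂ) ^ 2) • v (p.1 + 1) ((p.2 : ℤ) - 1) -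
      ∑ p ∈ Tr N A, (w p.1 p.2 * (sn N (p.2 : ℂ) * sn N ((p.2 : ℂ) - 1))) •
        v (p.1 + 1) ((p.2 : ℤ) - 2) := by
    rw [← sum_sub_distrib, ← sum_sub_distrib, ← sum_sub_distrib]
    refine sum_congr rfl fun p _ => ?_
    rw [mulVec_smul, hcas p]
    module
  rw [h1, sum_S1, sum_S2, sum_S3, smul_sum, ← sum_sub_distrib, ← sum_sub_distrib, ← sum_sub_distrib,
    ← sum_sub_distrib]
  have h2 : ∀ p ∈ Tr N A, (w p.1 p.2 * (2 * Complex.cos (Real.pi * (2 * (p.2 : ℂ) + 1) / N))) • v p.1 p.2 -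
      (if A + p.1 + p.2 + 1 < N then w p.1 (p.2 + 1) * sn N ((p.2 : ℂ) + 1) ^ 2 else 0) • v p.1 p.2 -
      (if 1 ≤ p.1 then w (p.1 - 1) (p.2 + 1) * sn N ((p.2 : ℂ) + 1) ^ 2 else 0) • v p.1 p.2 -
      (if 1 ≤ p.1 ∧ A + p.1 + p.2 + 1 < N then
        w (p.1 - 1) (p.2 + 2) * (sn N ((p.2 : ℂ) + 2) * sn N ((p.2 : ℂ) + 1)) else 0) • v p.1 p.2 -
      tz N z • w p.1 p.2 • v p.1 p.2 =
      if p = (0, N - 1 - A) then cz N z • v p.1 p.2 else 0 := by
    rintro ⟨β, C⟩ hp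
    rw [mem_Tr] at hp
    simp only at hp ⊢
    have ht := t_prod hN z C
    obtain ⟨r1, r2, r3, r4⟩ := hWR hPF N hN z A (β - 1) C
    rw [← ht] at r1 r2 r3 r4
    rw [← hw] at r1 r2 r3 r4
    rw [← sub_smul, ← sub_smul, ← sub_smul, smul_smul, ← sub_smul]
    rcases Nat.eq_zero_or_pos β with hβ | hβ
    · subst hβ
      by_cases hc : A + 0 + C + 1 < N
      · rw [if_pos hc, if_neg (by omega), if_neg (by omega), if_neg (by
          rw [Prod.mk.injEq]; omega)]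
        have := r2 (by omega)
        have h3 : w 0 C * (2 * Complex.cos (Real.pi * (2 * (C : ℂ) + 1) / N)) -
            w 0 (C + 1) * sn N ((C : ℂ) + 1) ^ 2 - 0 - 0 - tz N z * w 0 C = 0 := by
          linear_combination this
        rw [h3, zero_smul]
      · rw [if_neg hc, if_neg (by omega), if_neg (by omega), if_pos (by
          rw [Prod.mk.injEq]; omega)]
        have := r4 (by omega)
        congr 1
        linear_combination this
    · have e1 : β - 1 + 1 = β := by omega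
      rw [e1] at r1 r3
      by_cases hc : A + β + C + 1 < N
      · rw [if_pos hc, if_pos (by omega), if_pos ⟨hβ, hc⟩, if_neg (by
          rw [Prod.mk.injEq]; omega)]
        have := r1 (by omega)
        have h3 : w β C * (2 * Complex.cos (Real.pi * (2 * (C : ℂ) + 1) / N)) -
            w β (C + 1) * sn N ((C : ℂ) + 1) ^ 2 - w (β - 1) (C + 1) * sn N ((C : ℂ) + 1) ^ 2 -
            w (β - 1) (C + 2) * (sn N ((C : ℂ) + 2) * sn N ((C : ℂ) + 1)) - tz N z * w β C = 0 := by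
          linear_combination this
        rw [h3, zero_smul]
      · rw [if_neg hc, if_pos (by omega), if_neg (by omega), if_neg (by
          rw [Prod.mk.injEq]; omega)]
        have := r3 (by omega)
        have h3 : w β C * (2 * Complex.cos (Real.pi * (2 * (C : ℂ) + 1) / N)) -
            0 - w (β - 1) (C + 1) * sn N ((C : ℂ) + 1) ^ 2 - 0 - tz N z * w β C = 0 := by
          linear_combination this
        rw [h3, zero_smul]
  rw [sum_congr rfl h2, sum_ite_eq' (Tr N A) (0, N - 1 - A), if_pos (by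
    rw [mem_Tr]; simp only; omega), hv]
  unfold V
  congr 2
  · rw [Nat.cast_sub (by omega), Nat.cast_sub (by omega)]
    push_cast
    ring
  · push_cast
    ring

end Pool.Agent.Q210.KN
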