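import Pool.Agent.Q210.KN.Bas
import Pool.Agent.Q99.FW.Ent

/-!
# Project KN (helper99), job K3: the crossings at the root of unity
-/

set_option autoImplicit false

namespace Pool.Agent.Q210.KN

open Matrix Finset Filter Topology
open Pool.Agent.H550R3.Jones (WM IsMod IsInt Gen br brf W irr)
open Pool.Agent.W715.VC (rt rt_ne br_rt)
open Pool.Agent.Q191.TW (cs rt_cs)
open Pool.Agent.Q191.LB (sg cx sg_or)
open Pool.Agent.Q191.SH (gg cx_sc sgn)
open Pool.Agent.Q191.FT (Cas lam Sc lam_sub lam_ne crossP_diff crossN_diff zpow_diff br_diff)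
open Pool.Agent.Q99.FW (Kg gg_rt)
open Pool.Agent.Q99.FAL
open Pool.Agent.Q99.KN

variable {N : ℕ}

/-! ### matrices -/

section
variable {n : Type} [Fintype n] [DecidableEq n]

lemma pow_eig {C : Matrix n n ℂ} {y : n → ℂ} {t : ℂ} (h : C *ᵥ y = t • y) (k : ℕ) :
    C ^ k *ᵥ y = t ^ k • y := by
  induction k with
  | zero => simp
  | succ k ih => rw [pow_succ, ← mulVec_mulVec, h, mulVec_smul, ih, smul_smul, pow_succ, mul_comm]

lemma aeval_eig {C : Matrix n n ℂ} {y : n → ℂ} {t : ℂ} (h : C *ᵥ y = t • y) (p : Polynomial ℂ) :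
    Polynomial.aeval C p *ᵥ y = p.eval t • y := by
  induction p using Polynomial.induction_on' with
  | add p q hp hq => rw [map_add, add_mulVec, hp, hq, Polynomial.eval_add, add_smul]
  | monomial k a =>
    rw [Polynomial.aeval_monomial, Polynomial.eval_monomial, ← Algebra.smul_def, smul_mulVec, pow_eig h,
      smul_smul]

lemma ca_prod {C : ℂ → Matrix n n ℂ} {v0 : ℂ} (hC : ContinuousAt C v0) (ν : ℕ → ℂ → ℂ)
    (hν : ∀ e, ContinuousAt (ν e) v0) (E : Finset ℕ) :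
    ContinuousAt (fun v => Polynomial.aeval (C v)
      (∏ e ∈ E, (Polynomial.X - Polynomial.C (ν e v)))) v0 := by
  classical
  induction E using Finset.induction_on with
  | empty =>
    simp only [prod_empty, map_one]
    exact continuousAt_const
  | insert a s ha ih =>
    simp only [prod_insert ha, map_mul, map_sub, Polynomial.aeval_X, Polynomial.aeval_C]
    refine ContinuousAt.mul (hC.sub ?_) ih
    simp only [Algebra.algebraMap_eq_smul_one]
    exact (hν a).smul continuousAt_const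

end

/-! ### Lagrange polynomials -/

lemma basis_eq (E : Finset ℕ) (s : Finset ℕ) (ν : ℕ → ℂ) (d : ℕ) (hE : s.erase d = E) :
    Lagrange.basis s ν d = Polynomial.C ((∏ e ∈ E, (ν d - ν e))⁻¹) *
      ∏ e ∈ E, (Polynomial.X - Polynomial.C (ν e)) := by
  unfold Lagrange.basis Lagrange.basisDivisor
  rw [hE, prod_mul_distrib, ← map_prod, prod_inv_distrib]

/-! ### the eigenvalues of the Casimir operator near the root of unity -/

/-- the nodes -/
noncomputable def nd (d : ℕ) (v : ℂ) : ℂ := lam v (2 * (d : ℤ) + 1)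

lemma br_rt_ne (hN : 0 < N) {k : ℤ} (h : ¬ ((N : ℤ) ∣ k)) : br (rt N) k ≠ 0 := by
  rw [br_rt]
  have h1 : Real.sin (Real.pi * k / N) ≠ 0 := by
    intro h0
    rw [Real.sin_eq_zero_iff] at h0
    obtain ⟨n, hn⟩ := h0
    apply h
    refine ⟨n, ?_⟩
    have hNr : (N : ℝ) ≠ 0 := by exact_mod_cast hN.ne'
    field_simp at hn
    have h2 : (k : ℝ) = ((N * n : ℤ) : ℝ) := by push_cast; linarith
    exact_mod_cast h2
  have h2 : ((Pool.Agent.W715.VC.sn N k : ℝ) : ℂ) ≠ 0 := by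
    rw [Complex.ofReal_ne_zero]
    exact h1
  exact mul_ne_zero (mul_ne_zero two_ne_zero Complex.I_ne_zero) h2

lemma nd_sub {v : ℂ} (hv : v ≠ 0) (d e : ℕ) : nd d v - nd e v = br v (d + e + 1) * br v (d - e) := by
  have h := lam_sub hv ((d : ℤ) + e + 1) ((d : ℤ) - e)
  rw [show (d : ℤ) + e + 1 + (d - e) = 2 * d + 1 by ring,
    show (d : ℤ) + e + 1 - (d - e) = 2 * e + 1 by ring] at h
  exact h

lemma nd_rt_ne (hN : 0 < N) {d e : ℕ} (hd : d < N) (he : e < N) (h1 : d ≠ e) (h2 : d + e + 1 ≠ N) :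
    nd d (rt N) - nd e (rt N) ≠ 0 := by
  rw [nd_sub (rt_ne N)]
  refine mul_ne_zero (br_rt_ne hN ?_) (br_rt_ne hN ?_)
  · rintro ⟨k, hk⟩
    have hk1 : 0 < (N : ℤ) * k := by omega
    have hk2 : (N : ℤ) * k < N * 2 := by omega
    have hk3 : 0 < k := (pos_iff_pos_of_mul_pos hk1).1 (by omega)
    have hk4 : k < 2 := lt_of_mul_lt_mul_left hk2 (by omega)
    have : k = 1 := by omega
    subst this
    omega
  · rintro ⟨k, hk⟩
    have hk1 : -(N : ℤ) * 1 < (N : ℤ) * k := by omega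
    have hk2 : (N : ℤ) * k < N * 1 := by omega
    have hk3 : -1 < k := by nlinarith
    have hk4 : k < 1 := lt_of_mul_lt_mul_left hk2 (by omega)
    have : k = 0 := by omega
    subst this
    omega

/-- the value at the root of unity -/
lemma lam_rt (k : ℤ) : lam (rt N) k = 2 * Complex.cos (Real.pi * k / N) := by
  unfold lam
  rw [rt_cs, rt_cs]
  unfold cs
  rw [Complex.two_cos]
  congr 2
  · push_cast; ring
  · push_cast; ring

lemma nd_rt (hN : 0 < N) (d : ℕ) : nd d (rt N) = tz N (zl N d) := by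
  have hNc : (N : ℂ) ≠ 0 := by exact_mod_cast hN.ne'
  unfold nd tz zl
  rw [lam_rt, show (Real.pi : ℂ) * (2 * (d : ℂ) + 1 - N) / N =
    Real.pi * ((2 * (d : ℤ) + 1 : ℤ) : ℂ) / N - Real.pi by push_cast; field_simp, Complex.cos_sub_pi]
  ring

lemma nd_refl (hN : 0 < N) {d : ℕ} (hd : d < N) : nd (N - 1 - d) (rt N) = nd d (rt N) := by
  rw [nd_rt hN, nd_rt hN]
  unfold tz zl
  have e : (Real.pi : ℂ) * (2 * ((N - 1 - d : ℕ) : ℂ) + 1 - N) / N =
      -(Real.pi * (2 * (d : ℂ) + 1 - N) / N) := by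
    rw [Nat.cast_sub (by omega), Nat.cast_sub (by omega)]
    push_cast
    ring
  rw [e, Complex.cos_neg]

lemma nd_der {v : ℂ} (hv : v ≠ 0) (d : ℕ) :
    HasDerivAt (nd d) ((2 * (d : ℂ) + 1) / v * br v (2 * (d : ℤ) + 1)) v := by
  have h1 := hasDerivAt_zpow (2 * (d : ℤ) + 1) v (Or.inl hv)
  have h2 := hasDerivAt_zpow (-(2 * (d : ℤ) + 1)) v (Or.inl hv)
  have h3 := h1.add h2
  refine HasDerivAt.congr_deriv (f := nd d) h3 ?_
  unfold br
  rw [zpow_sub_one₀ hv, zpow_sub_one₀ hv]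
  push_cast
  field_simp
  ring

/-- the derivative of the difference of two coalescing nodes -/
lemma nd_der_sub (hN : 0 < N) {d : ℕ} (hd : d < N) :
    (2 * (d : ℂ) + 1) / rt N * br (rt N) (2 * (d : ℤ) + 1) -
      (2 * ((N - 1 - d : ℕ) : ℂ) + 1) / rt N * br (rt N) (2 * ((N - 1 - d : ℕ) : ℤ) + 1) =
    -(4 * Complex.I * N / rt N) * Complex.sin (Real.pi * zl N d / N) := by
  have hNc : (N : ℂ) ≠ 0 := by exact_mod_cast hN.ne'
  have hNr : (N : ℝ) ≠ 0 := by exact_mod_cast hN.ne'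
  have hv := rt_ne N
  have e0 : ((N - 1 - d : ℕ) : ℂ) = N - 1 - d := by
    rw [Nat.cast_sub (by omega), Nat.cast_sub (by omega)]
    push_cast
    ring
  have e0' : ((N - 1 - d : ℕ) : ℤ) = N - 1 - d := by omega
  have e1 : br (rt N) (2 * (d : ℤ) + 1) = -(2 * Complex.I * Complex.sin (Real.pi * zl N d / N)) := by
    rw [br_rt]
    unfold Pool.Agent.W715.VC.sn zl
    have : (Real.pi : ℂ) * (2 * (d : ℂ) + 1 - N) / N =
      ((Real.pi * ((2 * (d : ℤ) + 1 : ℤ) : ℝ) / N : ℝ) : ℂ) - Real.pi := by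
      push_cast; field_simp
    rw [this, Complex.sin_sub_pi, Complex.ofReal_sin]
    ring
  have e2 : br (rt N) (2 * ((N - 1 - d : ℕ) : ℤ) + 1) =
      2 * Complex.I * Complex.sin (Real.pi * zl N d / N) := by
    rw [br_rt, e0']
    unfold Pool.Agent.W715.VC.sn zl
    have : (Real.pi : ℂ) * (2 * (d : ℂ) + 1 - N) / N =
      Real.pi - ((Real.pi * ((2 * ((N : ℤ) - 1 - d) + 1 : ℤ) : ℝ) / N : ℝ) : ℂ) := by
      push_cast; field_simp; ring
    rw [this, Complex.sin_pi_sub, Complex.ofReal_sin]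
  rw [e1, e2, e0]
  field_simp
  ring

/-! ### the eigenvalues of the crossings -/

/-- the exponent -/
def ex (N : ℕ) (s : ℤ) (d : ℕ) : ℤ := s * (((2 * (d : ℤ) + 1) ^ 2 - 1) / 4 - ((N : ℤ) ^ 2 - 1))

lemma ex_eq (N : ℕ) (s : ℤ) (d : ℕ) : ex N s d = s * ((d : ℤ) * (d + 1) - ((N : ℤ) ^ 2 - 1)) := by
  unfold ex
  congr 2
  rw [show (2 * (d : ℤ) + 1) ^ 2 - 1 = 4 * ((d : ℤ) * (d + 1)) by ring]
  exact Int.mul_ediv_cancel_left _ (by norm_num)

lemma ex_sub (s : ℤ) {d : ℕ} (hd : d < N) :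
    ((ex N s d : ℤ) : ℂ) - ((ex N s (N - 1 - d) : ℤ) : ℂ) = s * N * zl N d := by
  rw [ex_eq, ex_eq]
  unfold zl
  have e0' : ((N - 1 - d : ℕ) : ℤ) = N - 1 - d := by omega
  rw [e0']
  push_cast
  ring

lemma gg_der {v : ℂ} (hv : v ≠ 0) (s : ℤ) (m d : ℕ) :
    HasDerivAt (fun v => gg N s v (2 * (d : ℤ) + 1) ^ m)
      ((ex N s d : ℂ) * m / v * gg N s v (2 * (d : ℤ) + 1) ^ m) v := by
  have h1 : ∀ v, gg N s v (2 * (d : ℤ) + 1) ^ m =
      sgn N (2 * (d : ℤ) + 1) ^ m * v ^ (ex N s d * m) := fun v => by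
    unfold gg
    rw [mul_pow, ← zpow_natCast (v ^ _) m, ← _root_.zpow_mul]
    rfl
  have h2 := (hasDerivAt_zpow (ex N s d * m) v (Or.inl hv)).const_mul (sgn N (2 * (d : ℤ) + 1) ^ m)
  have h3 : (fun v => gg N s v (2 * (d : ℤ) + 1) ^ m) =
    fun v => sgn N (2 * (d : ℤ) + 1) ^ m * v ^ (ex N s d * m) := funext h1
  rw [h3]
  refine h2.congr_deriv ?_
  rw [h1 v, zpow_sub_one₀ hv]
  push_cast
  field_simp

lemma gg_val (hN : 0 < N) {s : ℤ} (hs : s = 1 ∨ s = -1) (m d : ℕ) :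
    gg N s (rt N) (2 * (d : ℤ) + 1) ^ m = Kg N s ^ m * ez N (s * m) (zl N d) := by
  have h := gg_rt hN hs 0 d
  rw [show (((2 * 0 : ℕ) : ℤ) + 1 + 2 * (d : ℤ)) = 2 * (d : ℤ) + 1 by push_cast; ring] at h
  rw [h, mul_pow]
  congr 1
  unfold cs ez zl
  rw [← Complex.exp_nat_mul]
  congr 1
  push_cast
  ring

/-- the difference of the eigenvalues -/
noncomputable def ep (N : ℕ) (s : ℤ) (m : ℕ) (p : Polynomial ℂ) (d : ℕ) (v : ℂ) : ℂ :=
  gg N s v (2 * (d : ℤ) + 1) ^ m - Kg N s ^ m * p.eval (nd d v)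

lemma ep_der {v : ℂ} (hv : v ≠ 0) (s : ℤ) (m : ℕ) (p : Polynomial ℂ) (d : ℕ) :
    HasDerivAt (ep N s m p d) ((ex N s d : ℂ) * m / v * gg N s v (2 * (d : ℤ) + 1) ^ m -
      Kg N s ^ m * (p.derivative.eval (nd d v) *
        ((2 * (d : ℂ) + 1) / v * br v (2 * (d : ℤ) + 1)))) v := by
  have h1 := (p.hasDerivAt (nd d v)).comp v (nd_der hv d)
  exact (gg_der hv s m d).sub (h1.const_mul (Kg N s ^ m))

section
variable {s : ℤ} {m : ℕ} {p : Polynomial ℂ}

lemma ep_zero (hN : 0 < N) (hs : s = 1 ∨ s = -1)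
    (hp : ∀ k < N, p.eval (tz N (zl N k)) = ez N (s * m) (zl N k)) {d : ℕ} (hd : d < N) :
    ep N s m p d (rt N) = 0 := by
  unfold ep
  rw [gg_val hN hs, nd_rt hN, hp d hd, sub_self]

lemma ep_der_sub (hN : 0 < N) (hs : s = 1 ∨ s = -1)
    (hp : ∀ k < N, p.eval (tz N (zl N k)) = ez N (s * m) (zl N k))
    (hp' : ∀ k < N, p.derivative.eval (tz N (zl N k)) * (2 * Real.pi / N *
      Complex.sin (Real.pi * zl N k / N)) =
        Complex.I * Real.pi * (s * m : ℤ) * zl N k / (2 * N) * ez N (s * m) (zl N k))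
    {d : ℕ} (hd : d < N) :
    ((ex N s d : ℂ) * m / rt N * gg N s (rt N) (2 * (d : ℤ) + 1) ^ m -
      Kg N s ^ m * (p.derivative.eval (nd d (rt N)) *
        ((2 * (d : ℂ) + 1) / rt N * br (rt N) (2 * (d : ℤ) + 1)))) -
    ((ex N s (N - 1 - d) : ℂ) * m / rt N * gg N s (rt N) (2 * ((N - 1 - d : ℕ) : ℤ) + 1) ^ m -
      Kg N s ^ m * (p.derivative.eval (nd (N - 1 - d) (rt N)) *
        ((2 * ((N - 1 - d : ℕ) : ℂ) + 1) / rt N * br (rt N) (2 * ((N - 1 - d : ℕ) : ℤ) + 1)))) = 0 := by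
  have hNc : (N : ℂ) ≠ 0 := by exact_mod_cast hN.ne'
  have hpi : (Real.pi : ℂ) ≠ 0 := by exact_mod_cast Real.pi_ne_zero
  have hv := rt_ne N
  have h1 := nd_der_sub hN hd
  have h2 := hp' d hd
  rw [nd_refl hN hd, gg_val hN hs, gg_val hN hs]
  have hz : zl N (N - 1 - d) = -zl N d := by
    unfold zl
    rw [Nat.cast_sub (by omega), Nat.cast_sub (by omega)]
    push_cast
    ring
  have hez : ez N (s * m) (zl N (N - 1 - d)) = ez N (s * m) (zl N d) := by
    rw [hz]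
    unfold ez
    rw [neg_sq]
  rw [hez]
  rw [← nd_rt hN] at h2
  have h3 := ex_sub (N := N) s hd
  obtain ⟨P, hP⟩ : ∃ P, P = p.derivative.eval (nd d (rt N)) := ⟨_, rfl⟩
  obtain ⟨S, hS⟩ : ∃ S, S = Complex.sin (Real.pi * zl N d / N) := ⟨_, rfl⟩
  obtain ⟨e, he⟩ : ∃ e, e = ez N (s * m) (zl N d) := ⟨_, rfl⟩
  obtain ⟨z, hz⟩ : ∃ z, z = zl N d := ⟨_, rfl⟩
  obtain ⟨K, hK⟩ : ∃ K, K = Kg N s ^ m := ⟨_, rfl⟩
  obtain ⟨v, hvd⟩ : ∃ v, v = rt N := ⟨_, rfl⟩
  obtain ⟨x1, hx1⟩ : ∃ x, x = (2 * (d : ℂ) + 1) / rt N * br (rt N) (2 * (d : ℤ) + 1) := ⟨_, rfl⟩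
  obtain ⟨x2, hx2⟩ : ∃ x, x = (2 * ((N - 1 - d : ℕ) : ℂ) + 1) / rt N *
    br (rt N) (2 * ((N - 1 - d : ℕ) : ℤ) + 1) := ⟨_, rfl⟩
  rw [← hx1, ← hx2, ← hS, ← hvd] at h1
  rw [← hP, ← hS, ← he] at h2
  rw [← hP, ← hx1, ← hx2, ← he, ← hK, ← hvd]
  rw [← hz] at h3 h2
  rw [← hvd] at hv
  push_cast at h2
  have h4 : P * S = Complex.I * (s * m) * z / 4 * e := by
    field_simp at h2
    field_simp
    linear_combination h2
  have h5 : (ex N s d : ℂ) * m / v * (K * e) - K * (P * x1) -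
      ((ex N s (N - 1 - d) : ℂ) * m / v * (K * e) - K * (P * x2)) =
      ((ex N s d : ℂ) - (ex N s (N - 1 - d) : ℂ)) * m / v * (K * e) - K * P * (x1 - x2) := by ring
  rw [h5, h3, h1]
  have h6 : K * P * (-(4 * Complex.I * N / v) * S) = -(K * (4 * Complex.I * N / v)) * (P * S) := by ring
  rw [h6, h4]
  have hI : Complex.I * Complex.I = -1 := Complex.I_mul_I
  field_simp
  linear_combination (s * N * z * m * K * e) * hI

/-! ### limits -/

/-- quotients of functions with a zero -/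
lemma lim_quot {h k : ℂ → ℂ} {v0 k' : ℂ} (hh : HasDerivAt h 0 v0) (h0 : h v0 = 0)
    (hk : HasDerivAt k k' v0) (k0 : k v0 = 0) (hk' : k' ≠ 0) :
    Tendsto (fun v => h v / k v) (𝓝[≠] v0) (𝓝 0) := by
  have h1 := hasDerivAt_iff_tendsto_slope.1 hh
  have h2 := hasDerivAt_iff_tendsto_slope.1 hk
  have h3 := h1.div h2 hk'
  rw [zero_div] at h3
  refine h3.congr' ?_
  filter_upwards [self_mem_nhdsWithin] with v hv
  have hv' : v - v0 ≠ 0 := sub_ne_zero.2 hv
  rw [Pi.div_apply, slope_def_field, slope_def_field, h0, k0, sub_zero, sub_zero]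
  field_simp

/-- generic points -/
def SS : Set ℂ := {v | v ≠ 0 ∧ ‖v‖ ≠ 1}

lemma rt_norm : ‖rt N‖ = 1 := by
  have h := rt_cs N 1
  rw [zpow_one] at h
  rw [h]
  exact Pool.Agent.Q191.TW.cs_norm N _

lemma SS_bot : NeBot (𝓝[SS] (rt N)) := by
  rw [← mem_closure_iff_nhdsWithin_neBot, Metric.mem_closure_iff]
  intro ε hε
  have h1 : ‖(((1 + ε / 2 : ℝ) : ℂ)) * rt N‖ = 1 + ε / 2 := by
    rw [norm_mul, rt_norm, mul_one, Complex.norm_real, Real.norm_of_nonneg (by linarith)]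
  refine ⟨((1 + ε / 2 : ℝ) : ℂ) * rt N, ⟨?_, ?_⟩, ?_⟩
  · intro h
    rw [h, norm_zero] at h1
    linarith
  · rw [h1]
    linarith
  · rw [dist_eq_norm]
    have : rt N - ((1 + ε / 2 : ℝ) : ℂ) * rt N = ((-(ε / 2) : ℝ) : ℂ) * rt N := by push_cast; ring
    rw [this, norm_mul, rt_norm, mul_one, Complex.norm_real, Real.norm_eq_abs, abs_neg,
      abs_of_pos (by linarith)]
    linarith

lemma SS_le : 𝓝[SS] (rt N) ≤ 𝓝[≠] (rt N) := by
  refine nhdsWithin_mono _ ?_
  intro v hv h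
  rw [Set.mem_singleton_iff] at h
  apply hv.2
  rw [h, rt_norm]

lemma gen_of {v : ℂ} (hv : v ∈ SS) : ∃ u : ℂ, Gen u ∧ u ^ 2 = v := by
  obtain ⟨u, hu⟩ := IsAlgClosed.exists_pow_nat_eq v (n := 2) (by norm_num)
  refine ⟨u, ⟨?_, ?_⟩, hu⟩
  · rintro rfl
    apply hv.1
    rw [← hu]
    norm_num
  · intro n hn h
    rw [hu] at h
    unfold br at h
    have h1 : v ^ (n : ℤ) = v ^ (-(n : ℤ)) := sub_eq_zero.1 h
    have h2 := congrArg norm h1
    rw [norm_zpow, norm_zpow, _root_.zpow_neg, zpow_natCast] at h2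
    have h3 : 0 < ‖v‖ := norm_pos_iff.2 hv.1
    have h4 : ‖v‖ ^ n * ‖v‖ ^ n = 1 := by
      nth_rewrite 1 [h2]
      exact inv_mul_cancel₀ (by positivity)
    have h5 : ‖v‖ ^ (n + n) = 1 := by rw [pow_add, h4]
    exact hv.2 ((pow_eq_one_iff_of_nonneg h3.le (by omega)).1 h5)

lemma nd_ca (d : ℕ) : ContinuousAt (nd d) (rt N) := (nd_der (rt_ne N) d).continuousAt

lemma cas_ca : ContinuousAt (fun v => Cas v (W v N)) (rt N) := by
  have hv := rt_ne N
  have h1 := (Pool.Agent.Q99.FW.W_F_diff hv N).mul (Pool.Agent.Q99.FW.W_E_diff hv N)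
  unfold Cas
  refine ContinuousAt.add ?_ ?_
  · exact continuousAt_pi.2 fun i => continuousAt_pi.2 fun j => (h1 i j).continuousAt
  · refine continuousAt_pi.2 fun i => continuousAt_pi.2 fun j => ?_
    by_cases hij : i = j
    · subst hij
      simp only [diagonal_apply_eq]
      unfold lam
      exact ((zpow_diff hv _).add (zpow_diff hv _)).continuousAt
    · simp only [diagonal_apply_ne _ hij]
      exact continuousAt_const

lemma cx_ca (hN : 0 < N) (σ : Bool) : ContinuousAt (fun v => cx σ N v) (rt N) := by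
  have hne : ∀ k : ℕ, 0 < k → k < N → br (rt N) k ≠ 0 := by
    intro k h1 h2
    refine br_rt_ne hN ?_
    intro h3
    have := Nat.le_of_dvd h1 (by exact_mod_cast h3)
    omega
  refine continuousAt_pi.2 fun i => continuousAt_pi.2 fun j => ?_
  cases σ
  · exact (crossN_diff (rt_ne N) hne i j).continuousAt
  · exact (crossP_diff (rt_ne N) hne i j).continuousAt

/-- a double node -/
lemma lim_pair (hN : 0 < N) (hs : s = 1 ∨ s = -1)
    (hp : ∀ k < N, p.eval (tz N (zl N k)) = ez N (s * m) (zl N k))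
    (hp' : ∀ k < N, p.derivative.eval (tz N (zl N k)) * (2 * Real.pi / N *
      Complex.sin (Real.pi * zl N k / N)) =
        Complex.I * Real.pi * (s * m : ℤ) * zl N k / (2 * N) * ez N (s * m) (zl N k))
    {d : ℕ} (hd : d < N) (hne : d ≠ N - 1 - d) :
    Tendsto (fun v => ep N s m p d v • Polynomial.aeval (Cas v (W v N))
        (Lagrange.basis (range N) (fun d : ℕ => nd d v) d) +
      ep N s m p (N - 1 - d) v • Polynomial.aeval (Cas v (W v N))
        (Lagrange.basis (range N) (fun d : ℕ => nd d v) (N - 1 - d))) (𝓝[SS] (rt N)) (𝓝 0) := by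
  obtain ⟨d', hd'⟩ : ∃ d', d' = N - 1 - d := ⟨_, rfl⟩
  rw [← hd'] at hne
  have hdN : d' < N := by omega
  obtain ⟨E, hE⟩ : ∃ E, E = ((range N).erase d).erase d' := ⟨_, rfl⟩
  have hE1 : (range N).erase d = insert d' E := by
    rw [hE, insert_erase]
    rw [mem_erase, mem_range]
    exact ⟨fun h => hne h.symm, hdN⟩
  have hE2 : (range N).erase d' = insert d E := by
    rw [hE, erase_right_comm, insert_erase]
    rw [mem_erase, mem_range]
    exact ⟨hne, hd⟩
  have hdE : d ∉ E := by rw [hE]; simp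
  have hdE' : d' ∉ E := by rw [hE]; simp
  have hEmem : ∀ e ∈ E, e < N ∧ e ≠ d ∧ e ≠ d' := by
    intro e he
    rw [hE, mem_erase, mem_erase, mem_range] at he
    exact ⟨he.2.2, he.2.1, he.1⟩
  -- the products
  have hG : ∀ x < N, (x = d ∨ x = d') → (∏ e ∈ E, (nd x (rt N) - nd e (rt N))) ≠ 0 := by
    intro x hx hxd
    refine prod_ne_zero_iff.2 fun e he => ?_
    obtain ⟨he1, he2, he3⟩ := hEmem e he
    refine nd_rt_ne hN hx he1 ?_ ?_
    · rcases hxd with h | h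
      · rw [h]; exact he2.symm
      · rw [h]; exact he3.symm
    · rcases hxd with h | h <;> omega
  have hGd : ∀ x, DifferentiableAt ℂ (fun v => ∏ e ∈ E, (nd x v - nd e v)) (rt N) := by
    intro x
    refine DifferentiableAt.fun_finsetProd fun e _ => ?_
    exact (nd_der (rt_ne N) x).differentiableAt.sub (nd_der (rt_ne N) e).differentiableAt
  have hGeq : (∏ e ∈ E, (nd d' (rt N) - nd e (rt N))) = ∏ e ∈ E, (nd d (rt N) - nd e (rt N)) := by
    rw [hd', nd_refl hN hd]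
  -- the quotients
  have hq : ∀ x < N, (x = d ∨ x = d') → HasDerivAt
      (fun v => ep N s m p x v / ∏ e ∈ E, (nd x v - nd e v))
      (((ex N s x : ℂ) * m / rt N * gg N s (rt N) (2 * (x : ℤ) + 1) ^ m -
      Kg N s ^ m * (p.derivative.eval (nd x (rt N)) *
        ((2 * (x : ℂ) + 1) / rt N * br (rt N) (2 * (x : ℤ) + 1)))) /
        ∏ e ∈ E, (nd x (rt N) - nd e (rt N))) (rt N) := by
    intro x hx hxd
    have h1 := (ep_der (N := N) (rt_ne N) s m p x).div (hGd x).hasDerivAt (hG x hx hxd)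
    refine h1.congr_deriv ?_
    rw [ep_zero hN hs hp hx, zero_mul, sub_zero]
    have := hG x hx hxd
    field_simp
  have hq1 := hq d hd (Or.inl rfl)
  have hq2 := hq d' hdN (Or.inr rfl)
  rw [hGeq] at hq2
  have hq3 := hq1.sub hq2
  rw [← sub_div, hd', ep_der_sub hN hs hp hp' hd, zero_div, ← hd'] at hq3
  have hk := (nd_der (rt_ne N) d).sub (nd_der (rt_ne N) d')
  rw [hd', nd_der_sub hN hd, ← hd'] at hk
  have hsin : Complex.sin (Real.pi * zl N d / N) ≠ 0 := by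
    intro h
    rw [Complex.sin_eq_zero_iff] at h
    obtain ⟨k, hk⟩ := h
    have hNc : (N : ℂ) ≠ 0 := by exact_mod_cast hN.ne'
    have hpi : (Real.pi : ℂ) ≠ 0 := by exact_mod_cast Real.pi_ne_zero
    unfold zl at hk
    field_simp at hk
    have h1 : (((2 * d + 1 - N : ℤ)) : ℂ) = ((N * k : ℤ) : ℂ) := by push_cast; linear_combination hk
    have h2 : (2 * d + 1 - N : ℤ) = N * k := by exact_mod_cast h1
    have h3 : -(N : ℤ) * 1 < N * k := by omega
    have h4 : (N : ℤ) * k < N * 1 := by omega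
    have h5 : -1 < k := by nlinarith
    have h6 : k < 1 := lt_of_mul_lt_mul_left h4 (by omega)
    have : k = 0 := by omega
    subst this
    omega
  have hlim := lim_quot hq3 (by
    rw [Pi.sub_apply, ep_zero hN hs hp hd, ep_zero hN hs hp hdN]; simp) hk (by
    rw [Pi.sub_apply, hd', nd_refl hN hd, sub_self]) (by
    have hNc : (N : ℂ) ≠ 0 := by exact_mod_cast hN.ne'
    have hv := rt_ne N
    have hI := Complex.I_ne_zero
    refine mul_ne_zero (neg_ne_zero.2 (div_ne_zero (mul_ne_zero (mul_ne_zero (by norm_num) hI) hNc) hv)) hsin)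
  have hlim' := hlim.mono_left (SS_le (N := N))
  have hg := ca_prod (cas_ca (N := N)) (fun e => nd e) (fun e => nd_ca e) E
  have hg' := hg.tendsto.mono_left (nhdsWithin_le_nhds (s := SS))
  have hC := (cas_ca (N := N)).tendsto.mono_left (nhdsWithin_le_nhds (s := SS))
  have hb := hq2.continuousAt.tendsto.mono_left (nhdsWithin_le_nhds (s := SS))
  rw [ep_zero hN hs hp hdN, zero_div] at hb
  have hν : Tendsto (fun v => (nd d' v) • (1 : Matrix (Fin N × Fin N) (Fin N × Fin N) ℂ)) (𝓝[SS] (rt N))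
      (𝓝 (nd d' (rt N) • 1)) :=
    (((nd_ca d').tendsto.mono_left nhdsWithin_le_nhds).smul tendsto_const_nhds)
  have hfin := (hlim'.smul ((hC.sub hν).mul hg')).add (hb.smul hg')
  rw [zero_smul, zero_smul, add_zero] at hfin
  refine hfin.congr' ?_
  filter_upwards [self_mem_nhdsWithin] with v hv
  obtain ⟨u, hu, huv⟩ := gen_of hv
  have hD : nd d v - nd d' v ≠ 0 := by
    unfold nd
    rw [← huv, sub_ne_zero]
    exact lam_ne hu (by omega) (by omega) ⟨(d : ℤ) - d', by ring⟩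
  rw [← hd']
  rw [basis_eq (insert d' E) (range N) (fun d : ℕ => nd d v) d hE1,
    basis_eq (insert d E) (range N) (fun d : ℕ => nd d v) d' hE2]
  rw [prod_insert hdE', prod_insert hdE', prod_insert hdE, prod_insert hdE]
  simp only [map_mul, map_sub, Polynomial.aeval_X, Polynomial.aeval_C, Algebra.algebraMap_eq_smul_one]
  obtain ⟨g, hgd⟩ : ∃ g, g = Polynomial.aeval (Cas v (W v N))
      (∏ e ∈ E, (Polynomial.X - Polynomial.C (nd e v))) := ⟨_, rfl⟩
  simp only [Pi.sub_apply]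
  rw [← hgd]
  obtain ⟨Q, hQ⟩ : ∃ Q, Q = Cas v (W v N) := ⟨_, rfl⟩
  rw [← hQ]
  obtain ⟨G, hGdef⟩ : ∃ G, G = ∏ e ∈ E, (nd d v - nd e v) := ⟨_, rfl⟩
  obtain ⟨G', hGdef'⟩ : ∃ G, G = ∏ e ∈ E, (nd d' v - nd e v) := ⟨_, rfl⟩
  rw [← hGdef, ← hGdef']
  obtain ⟨x, hx⟩ : ∃ x, x = nd d v := ⟨_, rfl⟩
  obtain ⟨x', hx'⟩ : ∃ x, x = nd d' v := ⟨_, rfl⟩
  rw [← hx, ← hx'] at hD ⊢
  have hD' : x' - x ≠ 0 := by
    rw [← neg_sub]; exact neg_ne_zero.2 hD
  obtain ⟨a, ha⟩ : ∃ x, x = ep N s m p d v := ⟨_, rfl⟩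
  obtain ⟨a', ha'⟩ : ∃ x, x = ep N s m p d' v := ⟨_, rfl⟩
  rw [← ha, ← ha']
  simp only [sub_mul, smul_mul_assoc, one_mul, smul_sub, smul_smul, mul_sub, mul_inv]
  have hid : (x - x')⁻¹ = (x - x')⁻¹ := rfl
  match_scalars
  · field_simp
    ring
  · field_simp
    ring

/-- a simple node -/
lemma lim_single (hN : 0 < N) (hs : s = 1 ∨ s = -1)
    (hp : ∀ k < N, p.eval (tz N (zl N k)) = ez N (s * m) (zl N k))
    {d : ℕ} (hd : d < N) (heq : d = N - 1 - d) :
    Tendsto (fun v => ep N s m p d v • Polynomial.aeval (Cas v (W v N))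
        (Lagrange.basis (range N) (fun d : ℕ => nd d v) d)) (𝓝[SS] (rt N)) (𝓝 0) := by
  obtain ⟨E, hE⟩ : ∃ E, E = (range N).erase d := ⟨_, rfl⟩
  have hEmem : ∀ e ∈ E, e < N ∧ e ≠ d := by
    intro e he
    rw [hE, mem_erase, mem_range] at he
    exact ⟨he.2, he.1⟩
  have hG : (∏ e ∈ E, (nd d (rt N) - nd e (rt N))) ≠ 0 := by
    refine prod_ne_zero_iff.2 fun e he => ?_
    obtain ⟨he1, he2⟩ := hEmem e he
    exact nd_rt_ne hN hd he1 he2.symm (by omega)
  have hGc : ContinuousAt (fun v => ∏ e ∈ E, (nd d v - nd e v)) (rt N) := by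
    refine tendsto_finsetProd _ fun e _ => ?_
    exact ((nd_ca d).sub (nd_ca e)).tendsto
  have hep : ContinuousAt (ep N s m p d) (rt N) := (ep_der (rt_ne N) s m p d).continuousAt
  have h1 := (hep.tendsto.mul (hGc.tendsto.inv₀ hG)).mono_left (nhdsWithin_le_nhds (s := SS))
  rw [ep_zero hN hs hp hd, zero_mul] at h1
  have hg := ca_prod (cas_ca (N := N)) (fun e => nd e) (fun e => nd_ca e) E
  have hg' := hg.tendsto.mono_left (nhdsWithin_le_nhds (s := SS))
  have hfin := h1.smul hg'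
  rw [zero_smul] at hfin
  refine hfin.congr fun v => ?_
  rw [basis_eq E (range N) (fun d : ℕ => nd d v) d hE.symm]
  simp only [map_mul, Polynomial.aeval_C, Algebra.algebraMap_eq_smul_one, smul_mul_assoc, one_mul, smul_smul]

end

lemma sc_aeval {u : ℂ} (p : Polynomial ℂ) (P : ℤ) :
    Sc u (W (u ^ 2) N) (Polynomial.aeval (Cas (u ^ 2) (W (u ^ 2) N)) p) P
      (fun c => p.eval (lam (u ^ 2) c)) :=
  fun _ _ _ hy => aeval_eig hy p

theorem task_K3 : S_K3 := by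
  intro hMP hPJ N hN σ m p hp hp'
  obtain ⟨s, hsd⟩ : ∃ s, s = sg σ := ⟨_, rfl⟩
  have hs : s = 1 ∨ s = -1 := by rw [hsd]; exact sg_or σ
  rw [← hsd] at hp hp' ⊢
  have hA : ContinuousAt (fun v => cx σ N v ^ m - Kg N s ^ m • Polynomial.aeval (Cas v (W v N)) p) (rt N) := by
    have hq : ContinuousAt (fun v => Polynomial.aeval (Cas v (W v N)) p) (rt N) :=
      ContinuousAt.comp (g := fun C : Matrix (Fin N × Fin N) (Fin N × Fin N) ℂ => Polynomial.aeval C p)
        (Polynomial.continuous_aeval p).continuousAt cas_ca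
    exact ((cx_ca hN σ).pow m).sub (hq.const_smul (Kg N s ^ m))
  have h1 := hA.tendsto.mono_left (nhdsWithin_le_nhds (s := SS))
  have h2 : Tendsto (fun v => (1 / 2 : ℂ) • ∑ d ∈ range N,
      (ep N s m p d v • Polynomial.aeval (Cas v (W v N))
        (Lagrange.basis (range N) (fun d : ℕ => nd d v) d) +
      ep N s m p (N - 1 - d) v • Polynomial.aeval (Cas v (W v N))
        (Lagrange.basis (range N) (fun d : ℕ => nd d v) (N - 1 - d)))) (𝓝[SS] (rt N)) (𝓝 0) := by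
    have h3 : Tendsto (fun v => ∑ d ∈ range N,
      (ep N s m p d v • Polynomial.aeval (Cas v (W v N))
        (Lagrange.basis (range N) (fun d : ℕ => nd d v) d) +
      ep N s m p (N - 1 - d) v • Polynomial.aeval (Cas v (W v N))
        (Lagrange.basis (range N) (fun d : ℕ => nd d v) (N - 1 - d)))) (𝓝[SS] (rt N))
        (𝓝 (∑ d ∈ range N, (0 : Matrix (Fin N × Fin N) (Fin N × Fin N) ℂ))) := by
      refine tendsto_finsetSum _ fun d hd => ?_
      have hd := mem_range.mp hd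
      by_cases hne : d = N - 1 - d
      · have h4 := lim_single hN hs hp hd hne
        rw [← hne]
        have h5 := h4.add h4
        rwa [add_zero] at h5
      · exact lim_pair hN hs hp hp' hd hne
    rw [sum_const_zero] at h3
    have h4 := h3.const_smul (1 / 2 : ℂ)
    rwa [smul_zero] at h4
  have h5 : Tendsto (fun v => cx σ N v ^ m - Kg N s ^ m • Polynomial.aeval (Cas v (W v N)) p)
      (𝓝[SS] (rt N)) (𝓝 0) := by
    refine h2.congr' ?_
    filter_upwards [self_mem_nhdsWithin] with v hv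
    obtain ⟨u, hu, huv⟩ := gen_of hv
    have hsc : Sc u (W (u ^ 2) N) (cx σ N (u ^ 2) ^ m - Kg N s ^ m •
        Polynomial.aeval (Cas (u ^ 2) (W (u ^ 2) N)) p) (2 * ((N : ℤ) - 1))
        (fun c => gg N s (u ^ 2) c ^ m - Kg N s ^ m * p.eval (lam (u ^ 2) c)) := by
      intro c hc y hy
      have e1 := ((cx_sc hu N σ).pow m) c hc y hy
      have e2 := ((sc_aeval (N := N) p (2 * ((N : ℤ) - 1))).smul (Kg N s ^ m)) c hc y hy
      rw [sub_mulVec, e1, e2, ← hsd, sub_smul]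
    have h6 := hPJ hMP N hN u hu _ _ hsc
    rw [huv] at h6
    rw [h6]
    have h7 : ∀ d : ℕ, gg N s v (2 * (d : ℤ) + 1) ^ m - Kg N s ^ m * p.eval (lam v (2 * (d : ℤ) + 1)) =
      ep N s m p d v := fun d => rfl
    rw [sum_add_distrib, sum_range_reflect (fun d => ep N s m p d v • Polynomial.aeval (Cas v (W v N))
        (Lagrange.basis (range N) (fun d : ℕ => nd d v) d)) N, ← two_smul ℂ, smul_smul]
    norm_num
    rfl
  have := SS_bot (N := N)
  have h8 := tendsto_nhds_unique h1 h5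
  exact sub_eq_zero.1 h8

end Pool.Agent.Q210.KN
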