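import Pool.Agent.Q99.KN.Stm3
import Pool.Agent.Q210.KN.Bas

/-!
# Project KN (helper99), job WG: the weights are values of an analytic function
-/

set_option autoImplicit false

namespace Pool.Agent.Q210.KN

open Finset
open Pool.Agent.W719.BS (D D_pos D_refl)
open Pool.Agent.Q99.KN

section
variable {N : ℕ}

lemma Gm_ne (hG : ∀ N : ℕ, ∀ x ∈ St, Gm N x * Gm N (1 - x) = 1) {x : ℂ} (hx : x ∈ St) : Gm N x ≠ 0 := by
  intro h
  have := hG N x hx
  rw [h, zero_mul] at this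
  exact zero_ne_one this

lemma Gm_iter (hN : 1 ≤ N) (h2 : ∀ N : ℕ, 1 ≤ N → ∀ x : ℂ, 0 < x.re → x.re + 1 / N < 1 →
    Gm N (x + 1 / N) = 2 * Complex.sin (Real.pi * (x + 1 / (2 * N))) * Gm N x) (x : ℂ) (hx : 0 < x.re)
    (m : ℕ) (hm : x.re + m / N < 1) :
    (∏ i ∈ range m, 2 * Complex.sin (Real.pi * (x + (i + 1 / 2) / N))) * Gm N x = Gm N (x + m / N) := by
  have hNr : (0 : ℝ) < N := by exact_mod_cast hN
  have hNc : (N : ℂ) ≠ 0 := by exact_mod_cast hNr.ne'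
  induction m with
  | zero => simp
  | succ m ih =>
    have h3 : x.re + m / N < 1 := by
      have : (m : ℝ) / N ≤ ((m + 1 : ℕ) : ℝ) / N := by
        apply div_le_div_of_nonneg_right _ hNr.le
        push_cast
        linarith
      linarith
    have h4 := h2 N hN (x + m / N) (by
      have e : (x + m / N : ℂ).re = x.re + m / N := by
        rw [Complex.add_re, show ((m : ℂ) / N) = ((m / N : ℝ) : ℂ) by push_cast; rfl, Complex.ofReal_re]
      rw [e]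
      have : (0 : ℝ) ≤ m / N := by positivity
      linarith) (by
      have e : (x + m / N : ℂ).re = x.re + m / N := by
        rw [Complex.add_re, show ((m : ℂ) / N) = ((m / N : ℝ) : ℂ) by push_cast; rfl, Complex.ofReal_re]
      rw [e]
      push_cast at hm
      rw [add_div] at hm
      linarith)
    rw [prod_range_succ, mul_assoc, mul_comm (2 * Complex.sin _) (Gm N x), ← mul_assoc, ih h3]
    have e1 : x + ((m + 1 : ℕ) : ℂ) / N = x + m / N + 1 / N := by push_cast; ring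
    rw [e1, h4, mul_comm]
    congr 3
    field_simp
    ring

lemma prod_half {n : ℂ} (hN : 1 ≤ N) (h2 : ∀ N : ℕ, 1 ≤ N → ∀ x : ℂ, 0 < x.re → x.re + 1 / N < 1 →
    Gm N (x + 1 / N) = 2 * Complex.sin (Real.pi * (x + 1 / (2 * N))) * Gm N x) (y : ℕ) (ζ : ℂ)
    (hn : n = (N - 1 + N * ζ) / 2) (hx : 0 < 1 / 2 + ζ.re / 2 - y / N) (hx2 : ζ.re < 1) :
    (∏ j ∈ range y, sn N (n - j)) * Gm N (1 / 2 + ζ / 2 - y / N) = Gm N (1 / 2 + ζ / 2) := by
  have hNr : (0 : ℝ) < N := by exact_mod_cast hN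
  have hNc : (N : ℂ) ≠ 0 := by exact_mod_cast hNr.ne'
  have hre : (1 / 2 + ζ / 2 - y / N : ℂ).re = 1 / 2 + ζ.re / 2 - y / N := by
    rw [Complex.sub_re, Complex.add_re, show ((y : ℂ) / N) = ((y / N : ℝ) : ℂ) by push_cast; rfl,
      Complex.ofReal_re]
    simp
  have h := Gm_iter hN h2 (1 / 2 + ζ / 2 - y / N) (by rw [hre]; exact hx) y (by rw [hre]; linarith)
  rw [sub_add_cancel] at h
  rw [← h]
  congr 1
  rw [← prod_range_reflect]
  refine prod_congr rfl fun j hj => ?_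
  have hj := mem_range.mp hj
  unfold sn
  congr 2
  rw [hn, Nat.cast_sub (by omega), Nat.cast_sub (by omega)]
  push_cast
  field_simp
  ring

lemma D_sq (hN : 1 ≤ N) (hG : ∀ N : ℕ, ∀ x ∈ St, Gm N x * Gm N (1 - x) = 1)
    (h2 : ∀ N : ℕ, 1 ≤ N → ∀ x : ℂ, 0 < x.re → x.re + 1 / N < 1 →
    Gm N (x + 1 / N) = 2 * Complex.sin (Real.pi * (x + 1 / (2 * N))) * Gm N x) (y : ℕ)
    (hy : 2 * y + 1 ≤ N) :
    ((D N y : ℝ) : ℂ) ^ 2 = N * Gm N (y / N + 1 / (2 * N)) ^ 2 := by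
  have hNr : (0 : ℝ) < N := by exact_mod_cast hN
  have hNc : (N : ℂ) ≠ 0 := by exact_mod_cast hNr.ne'
  obtain ⟨x, hx⟩ : ∃ x : ℂ, x = y / N + 1 / (2 * N) := ⟨_, rfl⟩
  have hxr : x = (((y : ℝ) / N + 1 / (2 * N) : ℝ) : ℂ) := by rw [hx]; push_cast; ring
  have hxre : x.re = (y : ℝ) / N + 1 / (2 * N) := by rw [hxr, Complex.ofReal_re]
  have hyN : 2 * (y : ℝ) + 1 ≤ N := by exact_mod_cast hy
  have hxpos : 0 < x.re := by rw [hxre]; positivity
  have hxlt : x.re < 1 := by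
    rw [hxre]
    have : (y : ℝ) / N + 1 / (2 * N) = (2 * y + 1) / (2 * N) := by field_simp
    rw [this, div_lt_one (by positivity)]
    linarith
  have hm : x.re + ((N - 1 - 2 * y : ℕ) : ℝ) / N = 1 - x.re := by
    rw [hxre, Nat.cast_sub (by omega), Nat.cast_sub (by omega)]
    push_cast
    field_simp
    ring
  have h3 := Gm_iter hN h2 x hxpos (N - 1 - 2 * y) (by rw [hm]; linarith)
  have h4 : x + ((N - 1 - 2 * y : ℕ) : ℂ) / N = 1 - x := by
    rw [hx, Nat.cast_sub (by omega), Nat.cast_sub (by omega)]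
    push_cast
    field_simp
    ring
  have hprod : ∏ i ∈ range (N - 1 - 2 * y), 2 * Complex.sin (Real.pi * (x + (i + 1 / 2) / N)) =
      ∏ i ∈ range (N - 1 - 2 * y), sn N ((y : ℂ) + 1 + i) := by
    refine prod_congr rfl fun i _ => ?_
    unfold sn
    congr 2
    rw [hx]
    field_simp
    ring
  have hDp : (∏ i ∈ range (N - 1 - 2 * y), sn N ((y : ℂ) + 1 + i)) * ((D N y : ℝ) : ℂ) =
      ((D N (N - 1 - y) : ℝ) : ℂ) := by
    have : ∀ β : ℕ, (∏ j ∈ range β, sn N ((y : ℂ) + 1 + j)) * ((D N y : ℝ) : ℂ) =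
        ((D N (y + β) : ℝ) : ℂ) := by
      intro β
      induction β with
      | zero => simp
      | succ β ih =>
        rw [prod_range_succ, ← add_assoc, D_succ, ← ih]
        push_cast
        rw [show (y : ℂ) + 1 + β = y + β + 1 by ring]
        ring
    rw [this, show y + (N - 1 - 2 * y) = N - 1 - y by omega]
  have hD : ((D N y : ℝ) : ℂ) * ((D N (N - 1 - y) : ℝ) : ℂ) = N := by
    rw [← Complex.ofReal_mul, D_refl N y (N - 1 - y) (by omega)]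
    simp
  have hxS : x ∈ St := ⟨hxpos, hxlt⟩
  have hinv := hG N x hxS
  have hne := Gm_ne hG (N := N) hxS
  rw [hprod, h4] at h3
  obtain ⟨P, hP⟩ : ∃ P, P = ∏ i ∈ range (N - 1 - 2 * y), sn N ((y : ℂ) + 1 + i) := ⟨_, rfl⟩
  rw [← hP] at h3 hDp
  rw [← hx]
  have h5 : P * Gm N x ^ 2 = 1 := by
    linear_combination Gm N x * h3 + hinv
  rw [← hDp] at hD
  linear_combination (-((D N y : ℝ) : ℂ) ^ 2) * h5 + Gm N x ^ 2 * hD

theorem task_WG : S_WG := by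
  intro hLC hGAM N y hN ζ h1 h2
  obtain ⟨-, g2, -, g4⟩ := hGAM hLC
  have hNr : (0 : ℝ) < N := by exact_mod_cast hN
  have hNc : (N : ℂ) ≠ 0 := by exact_mod_cast hNr.ne'
  have hζ := abs_lt.1 h2
  have hle := le_abs_self ζ.re
  have hle' := neg_abs_le ζ.re
  have hy0 : (0 : ℝ) ≤ y / N := by positivity
  have hy : 2 * y + 1 ≤ N := by
    have h3 : (y : ℝ) / N < 1 / 2 := by linarith [abs_nonneg ζ.re]
    rw [div_lt_iff₀ hNr] at h3
    have h4 : ((2 * y : ℕ) : ℝ) < N := by push_cast; linarith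
    have : 2 * y < N := by exact_mod_cast h4
    omega
  have p1 := prod_half hN g2 y ζ rfl (by linarith) (by linarith)
  have p2 := prod_half (n := ((N : ℂ) - 1 - N * ζ) / 2) hN g2 y (-ζ) (by ring) (by
    rw [Complex.neg_re]; linarith) (by rw [Complex.neg_re]; linarith)
  have hD := D_sq hN g4 g2 y hy
  have hS : (1 / 2 + ζ / 2 : ℂ) ∈ St := by
    constructor
    · simp; linarith
    · simp; linarith
  have hinv := g4 N _ hS
  rw [show (1 : ℂ) - (1 / 2 + ζ / 2) = 1 / 2 - ζ / 2 by ring] at hinv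
  rw [show (1 / 2 + -ζ / 2 : ℂ) = 1 / 2 - ζ / 2 by ring] at p2
  have hre1 : (1 / 2 + ζ / 2 - y / N : ℂ).re = 1 / 2 + ζ.re / 2 - y / N := by
    rw [Complex.sub_re, Complex.add_re, show ((y : ℂ) / N) = ((y / N : ℝ) : ℂ) by push_cast; rfl,
      Complex.ofReal_re]
    simp
  have hre2 : (1 / 2 - ζ / 2 - y / N : ℂ).re = 1 / 2 - ζ.re / 2 - y / N := by
    rw [Complex.sub_re, Complex.sub_re, show ((y : ℂ) / N) = ((y / N : ℝ) : ℂ) by push_cast; rfl,
      Complex.ofReal_re]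
    simp
  have n1 : Gm N (1 / 2 + ζ / 2 - y / N) ≠ 0 := Gm_ne g4 ⟨by rw [hre1]; linarith, by rw [hre1]; linarith⟩
  have n2 : Gm N (1 / 2 - ζ / 2 - y / N) ≠ 0 := Gm_ne g4 ⟨by rw [hre2]; linarith, by rw [hre2]; linarith⟩
  have hDne := D_ne (N := N) y (by omega)
  have hGx : Gm N (y / N + 1 / (2 * N)) ≠ 0 := by
    intro h
    rw [h] at hD
    have : ((D N y : ℝ) : ℂ) ^ 2 ≠ 0 := pow_ne_zero _ hDne
    apply this
    rw [hD]
    ring
  unfold Wy WW bc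
  obtain ⟨P1, hP1⟩ : ∃ P, P = ∏ j ∈ range y, sn N ((N - 1 + N * ζ) / 2 - j) := ⟨_, rfl⟩
  obtain ⟨P2, hP2⟩ : ∃ P, P = ∏ j ∈ range y, sn N ((N - 1 - N * ζ) / 2 - j) := ⟨_, rfl⟩
  rw [← hP1] at p1 ⊢
  rw [← hP2] at p2 ⊢
  refine eq_inv_of_mul_eq_one_left ?_
  have e1 : P1 / ((D N y : ℝ) : ℂ) * (P2 / ((D N y : ℝ) : ℂ)) *
      (N * Gm N (1 / 2 - ζ / 2 - y / N) * Gm N (1 / 2 + ζ / 2 - y / N) * Gm N (y / N + 1 / (2 * N)) ^ 2) =
      (P1 * Gm N (1 / 2 + ζ / 2 - y / N)) * (P2 * Gm N (1 / 2 - ζ / 2 - y / N)) *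
      (N * Gm N (y / N + 1 / (2 * N)) ^ 2) / ((D N y : ℝ) : ℂ) ^ 2 := by ring
  rw [e1, p1, p2, ← hD, hinv, one_mul, div_self (pow_ne_zero _ hDne)]

end

end Pool.Agent.Q210.KN
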