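import Pool.Agent.Q210.KN.Bas

/-!
# Project KN (helper99), job WR: the recursion of the weights
-/

set_option autoImplicit false

namespace Pool.Agent.Q210.KN

open Finset
open Pool.Agent.W719.BS (D D_pos D_refl)
open Pool.Agent.Q99.KN

variable {N : ℕ}

/-- the termwise identity -/
lemma wr_term {n1 n2 : ℂ} (hn : n1 + n2 = N - 1) (C c : ℕ) (h : C + c + 2 < N) :
    sn N (n1 - C) * sn N (n2 - C) * (bc N n1 C * bc N n2 (c + 1) * bc N n2 (C + (c + 1))) =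
      sn N (C + 1) ^ 2 * (bc N n1 (C + 1) * bc N n2 (c + 1) * bc N n2 (C + 1 + (c + 1)) +
        bc N n1 (C + 1) * bc N n2 c * bc N n2 (C + 1 + c)) +
      sn N (C + 1) * sn N (C + 2) * (bc N n1 (C + 2) * bc N n2 c * bc N n2 (C + 2 + c)) := by
  have hN : 0 < N := by omega
  have hP1 := bc_succ (N := N) n1 C (by omega)
  have hP2 := bc_succ (N := N) n1 (C + 1) (by omega)
  have hQ := bc_succ (N := N) n2 c (by omega)
  have hR := bc_succ (N := N) n2 (C + c + 1) (by omega)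
  rw [show C + (c + 1) = C + c + 1 by ring, show C + 1 + (c + 1) = C + c + 1 + 1 by ring,
    show C + 1 + c = C + c + 1 by ring, show C + 2 + c = C + c + 1 + 1 by ring]
  have hs1 := sn_succ_ne (N := N) c (by omega)
  have hs2 := sn_succ_ne (N := N) (C + c + 1) (by omega)
  obtain ⟨P, hPd⟩ : ∃ P, P = bc N n1 C := ⟨_, rfl⟩
  obtain ⟨P1, hP1d⟩ : ∃ P, P = bc N n1 (C + 1) := ⟨_, rfl⟩
  obtain ⟨P2, hP2d⟩ : ∃ P, P = bc N n1 (C + 2) := ⟨_, rfl⟩
  obtain ⟨Q, hQd⟩ : ∃ P, P = bc N n2 c := ⟨_, rfl⟩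
  obtain ⟨Q1, hQ1d⟩ : ∃ P, P = bc N n2 (c + 1) := ⟨_, rfl⟩
  obtain ⟨R, hRd⟩ : ∃ P, P = bc N n2 (C + c + 1) := ⟨_, rfl⟩
  obtain ⟨R1, hR1d⟩ : ∃ P, P = bc N n2 (C + c + 1 + 1) := ⟨_, rfl⟩
  have e1 : n1 - ((C + 1 : ℕ) : ℂ) = N - (n2 + C + 2) := by push_cast; linear_combination hn
  rw [e1, sn_refl hN] at hP2
  rw [show C + 1 + 1 = C + 2 by ring] at hP2
  rw [← hPd, ← hP1d] at hP1
  rw [← hP1d, ← hP2d] at hP2
  rw [← hQd, ← hQ1d] at hQ
  rw [← hRd, ← hR1d] at hR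
  rw [← hPd, ← hP1d, ← hP2d, ← hQd, ← hQ1d, ← hRd, ← hR1d]
  push_cast at hP1 hP2 hQ hR hs2
  rw [show ((C : ℂ) + 1 + 1) = C + 2 by ring] at hP2
  rw [show ((C : ℂ) + c + 1 + 1) = C + 1 + (c + 1) by ring,
    show n2 - ((C : ℂ) + c + 1) = n2 - C - (c + 1) by ring] at hR
  rw [show ((C : ℂ) + c + 1 + 1) = C + 1 + (c + 1) by ring] at hs2
  have t1 := three (N := N) (n2 - C) (C + 1) (c + 1)
  rw [show n2 - (C : ℂ) + (C + 1) = n2 + 1 by ring] at t1
  have t2 := four (N := N) n2 C (c + 1)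
  rw [show n2 + 1 - ((c : ℂ) + 1) = n2 - c by ring] at t2
  apply mul_right_cancel₀ (mul_ne_zero hs1 hs2)
  obtain ⟨s1, hs1d⟩ : ∃ s, s = sn N (C + 1) := ⟨_, rfl⟩
  obtain ⟨s2, hs2d⟩ : ∃ s, s = sn N (C + 2) := ⟨_, rfl⟩
  obtain ⟨a, ha⟩ : ∃ s, s = sn N (n1 - C) := ⟨_, rfl⟩
  obtain ⟨b, hb⟩ : ∃ s, s = sn N (n2 - C) := ⟨_, rfl⟩
  obtain ⟨u, hu⟩ : ∃ s, s = sn N ((c : ℂ) + 1) := ⟨_, rfl⟩
  obtain ⟨v, hv⟩ : ∃ s, s = sn N ((C : ℂ) + 1 + (c + 1)) := ⟨_, rfl⟩
  obtain ⟨w, hw⟩ : ∃ s, s = sn N (n2 - c) := ⟨_, rfl⟩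
  obtain ⟨x, hx⟩ : ∃ s, s = sn N (n2 - C - (c + 1)) := ⟨_, rfl⟩
  obtain ⟨y, hy⟩ : ∃ s, s = sn N (n2 + C + 2) := ⟨_, rfl⟩
  obtain ⟨t, ht⟩ : ∃ s, s = sn N (n2 + 1) := ⟨_, rfl⟩
  rw [← hs1d, ← hs2d, ← ha, ← hb, ← hu, ← hv]
  rw [← hs1d, ← ha] at hP1
  rw [← hs2d, ← hy] at hP2
  rw [← hu, ← hw] at hQ
  rw [← hv, ← hx] at hR
  rw [← hb, ← hv, ← hs1d, ← hx, ← hu, ← ht] at t1
  rw [← ht, ← hw, ← hs1d, ← hv, ← hy, ← hx] at t2
  -- the goal is `P a Q R` times the identity `b w v = s1 x w + s1 u v + y u x`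
  have key : b * w * v = s1 * x * w + s1 * u * v + y * u * x := by
    linear_combination w * t1 + u * t2
  have g2 : s1 * s2 * P2 = P * a * y := by
    linear_combination s1 * hP2 + y * hP1
  linear_combination (a * b * P * R * v - s1 ^ 2 * P1 * R1 * v) * hQ -
    (s1 ^ 2 * P1 * Q * w + s1 * s2 * P2 * Q * u) * hR + (P * a * Q * R) * key -
    s1 * (Q * w * R * x + Q * R * u * v) * hP1 - (Q * u * R * x) * g2

lemma wr_last (n1 n2 : ℂ) (C : ℕ) (h : C + 1 < N) :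
    sn N (n1 - C) * sn N (n2 - C) * (bc N n1 C * bc N n2 C) =
      sn N (C + 1) ^ 2 * (bc N n1 (C + 1) * bc N n2 (C + 1)) := by
  have h1 := bc_succ (N := N) n1 C h
  have h2 := bc_succ (N := N) n2 C h
  linear_combination -(bc N n2 C * sn N (n2 - C)) * h1 - (bc N n1 (C + 1) * sn N (C + 1)) * h2

/-- first case -/
lemma wr1 {z : ℂ} (A β C : ℕ) (h : A + β + C + 2 < N) :
    sn N ((N - 1 + z) / 2 - C) * sn N ((N - 1 - z) / 2 - C) * Wk N z A (β + 1) C =
    sn N (C + 1) ^ 2 * (Wk N z A (β + 1) (C + 1) + Wk N z A β (C + 1)) +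
      sn N (C + 1) * sn N (C + 2) * Wk N z A β (C + 2) := by
  obtain ⟨n1, h1⟩ : ∃ n : ℂ, n = (N - 1 + z) / 2 := ⟨_, rfl⟩
  obtain ⟨n2, h2⟩ : ∃ n : ℂ, n = (N - 1 - z) / 2 := ⟨_, rfl⟩
  have hn : n1 + n2 = N - 1 := by rw [h1, h2]; ring
  unfold Wk
  rw [← h1, ← h2, sum_range_succ, sum_range_succ (n := β + 1)]
  have hlast := wr_last (N := N) n1 n2 C (by omega)
  have hsum : sn N (n1 - C) * sn N (n2 - C) * (∑ b ∈ range (β + 1), bc N n2 A * bc N n1 C *
      (bc N n1 b * bc N n2 (β + 1 - b)) * (bc N n1 (A + b) * bc N n2 (C + (β + 1 - b)))) =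
      sn N (C + 1) ^ 2 * (∑ b ∈ range (β + 1), bc N n2 A * bc N n1 (C + 1) *
      (bc N n1 b * bc N n2 (β + 1 - b)) * (bc N n1 (A + b) * bc N n2 (C + 1 + (β + 1 - b))) +
      ∑ b ∈ range (β + 1), bc N n2 A * bc N n1 (C + 1) *
      (bc N n1 b * bc N n2 (β - b)) * (bc N n1 (A + b) * bc N n2 (C + 1 + (β - b)))) +
      sn N (C + 1) * sn N (C + 2) * (∑ b ∈ range (β + 1), bc N n2 A * bc N n1 (C + 2) *
      (bc N n1 b * bc N n2 (β - b)) * (bc N n1 (A + b) * bc N n2 (C + 2 + (β - b)))) := by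
    rw [← sum_add_distrib]
    simp only [mul_sum]
    rw [← sum_add_distrib]
    refine sum_congr rfl fun b hb => ?_
    have hb := mem_range.mp hb
    have e : β + 1 - b = (β - b) + 1 := by omega
    have t := wr_term (N := N) hn C (β - b) (by omega)
    rw [e]
    linear_combination (bc N n2 A * bc N n1 b * bc N n1 (A + b)) * t
  rw [Nat.sub_self, bc_zero]
  simp only [add_zero]
  linear_combination hsum + (bc N n2 A * bc N n1 (β + 1) * bc N n1 (A + (β + 1))) * hlast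

/-- second case -/
lemma wr2 {z : ℂ} (A C : ℕ) (h : A + C + 1 < N) :
    sn N ((N - 1 + z) / 2 - C) * sn N ((N - 1 - z) / 2 - C) * Wk N z A 0 C =
    sn N (C + 1) ^ 2 * Wk N z A 0 (C + 1) := by
  unfold Wk
  have hlast := wr_last (N := N) ((N - 1 + z) / 2) ((N - 1 - z) / 2) C (by omega)
  simp only [zero_add, sum_range_one, Nat.sub_self, bc_zero, add_zero]
  linear_combination (bc N ((N - 1 - z) / 2) A * bc N ((N - 1 + z) / 2) A) * hlast

/-- fourth case -/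
lemma wr4 {z : ℂ} (A C : ℕ) (h : A + C + 1 = N) :
    sn N ((N - 1 + z) / 2 - C) * sn N ((N - 1 - z) / 2 - C) * Wk N z A 0 C = cz N z := by
  obtain ⟨n1, h1⟩ : ∃ n : ℂ, n = (N - 1 + z) / 2 := ⟨_, rfl⟩
  obtain ⟨n2, h2⟩ : ∃ n : ℂ, n = (N - 1 - z) / 2 := ⟨_, rfl⟩
  have hN : 0 < N := by omega
  have hNc : (N : ℂ) ≠ 0 := by exact_mod_cast hN.ne'
  have hn : n1 + n2 = N - 1 := by rw [h1, h2]; ring
  unfold Wk
  rw [← h1, ← h2]
  simp only [zero_add, sum_range_one, Nat.sub_self, bc_zero, add_zero]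
  have p1 := bc_prod (N := N) hn A C h
  have p2 := bc_prod (N := N) (n1 := n2) (n2 := n1) (by rw [add_comm]; exact hn) A C h
  have hAC : (A : ℂ) = N - 1 - C := by rw [← h]; push_cast; ring
  have e1 : sn N (n1 - A) = -sn N (n2 - C) := by
    rw [← sn_neg]
    congr 1
    rw [hAC]
    linear_combination hn
  have e2 : sn N (n2 - A) = -sn N (n1 - C) := by
    rw [← sn_neg]
    congr 1
    rw [hAC]
    linear_combination hn
  rw [e1] at p1
  rw [e2] at p2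
  have e3 : Complex.sin (Real.pi * n2) = (-1) ^ N * Complex.sin (Real.pi * n1) := by
    have e4 : (Real.pi : ℂ) * n2 = -(Real.pi * (n1 + 1) - N * Real.pi) := by linear_combination Real.pi * hn
    rw [e4, Complex.sin_neg, Complex.sin_antiperiodic.sub_nat_mul_eq, mul_add, mul_one, Complex.sin_add_pi]
    ring
  have e5 : Complex.sin (Real.pi * (z - N + 1) / 2) ^ 2 = Complex.sin (Real.pi * n1) ^ 2 := by
    have e6 : (Real.pi : ℂ) * (z - N + 1) / 2 = Real.pi * (n1 + 1) - N * Real.pi := by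
      rw [h1]; ring
    rw [e6, Complex.sin_antiperiodic.sub_nat_mul_eq, mul_add, mul_one, Complex.sin_add_pi, mul_pow, neg_sq, ← pow_mul,
      mul_comm N 2, pow_mul]
    simp
  unfold cz
  rw [e5]
  rw [e3] at p2
  have hm : ((-1 : ℂ) ^ A) * (-1) ^ A = 1 := by
    rw [← mul_pow]; simp
  obtain ⟨S, hS⟩ : ∃ S, S = Complex.sin (Real.pi * n1) := ⟨_, rfl⟩
  rw [← hS] at p1 p2 ⊢
  field_simp
  linear_combination (bc N n2 A * bc N n1 C * (N * -sn N (n1 - C))) * p1 +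
    ((-1) ^ A * (2 * S)) * p2 + 4 * (-1) ^ N * S ^ 2 * hm

lemma D_prod (A β : ℕ) : (∏ j ∈ range β, sn N ((A : ℂ) + 1 + j)) * ((D N A : ℝ) : ℂ) =
    ((D N (A + β) : ℝ) : ℂ) := by
  induction β with
  | zero => simp
  | succ β ih =>
    rw [prod_range_succ, ← add_assoc, D_succ, ← ih]
    push_cast
    rw [show (A : ℂ) + 1 + β = A + β + 1 by ring]
    ring

lemma D_prod0 (β : ℕ) : (∏ j ∈ range β, sn N ((j : ℂ) + 1)) = ((D N β : ℝ) : ℂ) := by
  have h := D_prod (N := N) 0 β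
  rw [D_zero, Complex.ofReal_one, mul_one, zero_add] at h
  rw [← h]
  refine prod_congr rfl fun j _ => ?_
  congr 1
  push_cast
  ring

/-- the coefficients of the partial fractions -/
lemma pf_coeff {n1 n2 : ℂ} (hN : 0 < N) (hn : n1 + n2 = N - 1) (b c : ℕ) (hbc : b + c < N) :
    (∏ j ∈ range (b + c), sn N (n1 + j + 1 - b)) /
      (∏ j ∈ (range (b + c + 1)).erase b, sn N ((j : ℂ) - b)) = (-1) ^ b * (bc N n1 b * bc N n2 c) := by
  have hA : ∏ j ∈ range (b + c), sn N (n1 + j + 1 - b) =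
      (∏ j ∈ range b, sn N (n1 - j)) * ∏ j ∈ range c, sn N (n2 - j) := by
    rw [prod_range_add]
    congr 1
    · rw [← prod_range_reflect]
      refine prod_congr rfl fun j hj => ?_
      have hj := mem_range.mp hj
      congr 1
      rw [Nat.cast_sub (by omega), Nat.cast_sub (by omega)]
      push_cast
      ring
    · refine prod_congr rfl fun j _ => ?_
      rw [← sn_refl hN]
      congr 1
      push_cast
      linear_combination -hn
  have hB : ∏ j ∈ (range (b + c + 1)).erase b, sn N ((j : ℂ) - b) =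
      (-1) ^ b * ((D N b : ℝ) : ℂ) * ((D N c : ℝ) : ℂ) := by
    have e : (range (b + c + 1)).erase b = range b ∪ Ico (b + 1) (b + c + 1) := by
      ext j
      simp only [mem_erase, mem_range, mem_union, mem_Ico]
      omega
    rw [e, prod_union (by
      rw [disjoint_left]
      intro j hj hj2
      have := mem_range.mp hj
      have := mem_Ico.mp hj2
      omega), prod_Ico_eq_prod_range]
    congr 1
    · rw [← prod_range_reflect, ← D_prod0]
      have e2 : ((-1 : ℂ)) ^ b = ∏ _j ∈ range b, (-1 : ℂ) := by simp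
      rw [e2, ← prod_mul_distrib]
      refine prod_congr rfl fun j hj => ?_
      have hj := mem_range.mp hj
      rw [neg_one_mul, ← sn_neg]
      congr 1
      rw [Nat.cast_sub (by omega), Nat.cast_sub (by omega)]
      push_cast
      ring
    · rw [← D_prod0, show b + c + 1 - (b + 1) = c by omega]
      refine prod_congr rfl fun j _ => ?_
      congr 1
      push_cast
      ring
  rw [hA, hB]
  unfold bc
  have h1 := D_ne (N := N) b (by omega)
  have h2 := D_ne (N := N) c (by omega)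
  have h3 : ((-1 : ℂ) ^ b) * (-1) ^ b = 1 := by rw [← mul_pow]; simp
  have h4 : ((-1 : ℂ) ^ b) ≠ 0 := pow_ne_zero _ (by norm_num)
  field_simp
  rw [← pow_mul, mul_comm b 2, pow_mul]
  simp

/-- the closed form of the weight if the corner on the left is empty -/
lemma wr_closed (hPF : S_PF) {z : ℂ} (hz : ∀ k : ℤ, z ≠ k) (A β C : ℕ) (h : A + β + C + 1 = N) :
    Wk N z A β C * (∏ j ∈ range (β + 1), sn N ((A : ℂ) - (N - 1 + z) / 2 + j)) * (N * (D N A : ℝ)) =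
      (-1) ^ (A + 1) * bc N ((N - 1 - z) / 2) A * bc N ((N - 1 + z) / 2) C *
        (2 * Complex.sin (Real.pi * ((N - 1 + z) / 2))) * (D N (A + β) : ℝ) := by
  have hN : 0 < N := by omega
  have hNc : (N : ℂ) ≠ 0 := by exact_mod_cast hN.ne'
  obtain ⟨n1, h1⟩ : ∃ n : ℂ, n = (N - 1 + z) / 2 := ⟨_, rfl⟩
  obtain ⟨n2, h2⟩ : ∃ n : ℂ, n = (N - 1 - z) / 2 := ⟨_, rfl⟩
  have hn : n1 + n2 = N - 1 := by rw [h1, h2]; ring
  have hgen : ∀ j : ℤ, sn N (n1 - j) ≠ 0 := fun j => by rw [h1]; exact sn_gen hN hz j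
  have hgen' : ∀ m : ℕ, sn N ((A : ℂ) - n1 + m) ≠ 0 := fun m => by
    have e : (A : ℂ) - n1 + m = -(n1 - ((A + m : ℕ) : ℤ)) := by push_cast; ring
    rw [e, sn_neg]
    exact neg_ne_zero.2 (hgen _)
  have hdiff : ∀ i ≤ β, ∀ j ≤ β, i ≠ j → sn N ((j : ℂ) - i) ≠ 0 := by
    intro i hi j hj hij
    rcases lt_or_gt_of_ne hij with hlt | hlt
    · have := sn_nat_ne (N := N) (j - i) (by omega) (by omega)
      rwa [Nat.cast_sub hlt.le] at this
    · have := sn_nat_ne (N := N) (i - j) (by omega) (by omega)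
      rw [Nat.cast_sub hlt.le] at this
      rw [← neg_sub, sn_neg]
      exact neg_ne_zero.2 this
  have PF := hPF N hN β (fun j => (j : ℂ)) (fun j => n1 + j + 1) ((A : ℂ) - n1) (fun j _ => hgen' j)
    (fun i hi j hj hij => hdiff i hi j hj hij)
  have hDA := D_ne (N := N) A (by omega)
  -- the numerator on the left
  have hnum : (∏ j ∈ range β, sn N ((A : ℂ) - n1 + (n1 + j + 1))) * ((D N A : ℝ) : ℂ) =
      ((D N (A + β) : ℝ) : ℂ) := by
    rw [← D_prod]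
    congr 1
    refine prod_congr rfl fun j _ => ?_
    congr 1
    ring
  -- the terms on the right
  have hterm : ∀ b ∈ range (β + 1), (∏ j ∈ range β, sn N (n1 + j + 1 - b)) /
      (∏ j ∈ (range (β + 1)).erase b, sn N ((j : ℂ) - b)) / sn N ((A : ℂ) - n1 + b) =
      (-1) ^ b * (bc N n1 b * bc N n2 (β - b)) / sn N ((A : ℂ) - n1 + b) := by
    intro b hb
    have hb := mem_range.mp hb
    obtain ⟨c, rfl⟩ : ∃ c, β = b + c := ⟨β - b, by omega⟩
    rw [pf_coeff hN hn b c (by omega), Nat.add_sub_cancel_left]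
  have PF2 : (∏ j ∈ range β, sn N ((A : ℂ) - n1 + (n1 + j + 1))) /
      ∏ j ∈ range (β + 1), sn N ((A : ℂ) - n1 + j) =
      ∑ b ∈ range (β + 1), (-1) ^ b * (bc N n1 b * bc N n2 (β - b)) / sn N ((A : ℂ) - n1 + b) :=
    PF.trans (sum_congr rfl hterm)
  have hW : Wk N z A β C * N = (-1) ^ (A + 1) * bc N n2 A * bc N n1 C *
      (2 * Complex.sin (Real.pi * n1)) *
      ∑ b ∈ range (β + 1), (-1) ^ b * (bc N n1 b * bc N n2 (β - b)) / sn N ((A : ℂ) - n1 + b) := by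
    unfold Wk
    rw [← h1, ← h2, mul_sum, sum_mul]
    refine sum_congr rfl fun b hb => ?_
    have hb := mem_range.mp hb
    have p := bc_prod (N := N) hn (A + b) (C + (β - b)) (by omega)
    have e1 : sn N (n1 - ((A + b : ℕ) : ℂ)) = -sn N ((A : ℂ) - n1 + b) := by
      rw [← sn_neg]
      congr 1
      push_cast
      ring
    rw [e1] at p
    have hg := hgen' b
    have p2 : bc N n1 (A + b) * bc N n2 (C + (β - b)) * N =
        (-1) ^ (A + 1) * (-1) ^ b * (2 * Complex.sin (Real.pi * n1)) / sn N ((A : ℂ) - n1 + b) := by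
      rw [eq_div_iff hg]
      rw [pow_add] at p
      rw [pow_succ]
      linear_combination -p
    calc _ = bc N n2 A * bc N n1 C * (bc N n1 b * bc N n2 (β - b)) *
          (bc N n1 (A + b) * bc N n2 (C + (β - b)) * N) := by ring
      _ = _ := by rw [p2]; ring
  have hprod : (∏ j ∈ range (β + 1), sn N ((A : ℂ) - n1 + j)) ≠ 0 :=
    prod_ne_zero_iff.2 fun j _ => hgen' j
  rw [← h1, ← h2]
  rw [div_eq_iff hprod] at PF2
  obtain ⟨Sg, hSg⟩ : ∃ S, S = ∑ b ∈ range (β + 1), (-1) ^ b * (bc N n1 b * bc N n2 (β - b)) /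
    sn N ((A : ℂ) - n1 + b) := ⟨_, rfl⟩
  rw [← hSg] at PF2 hW
  rw [PF2] at hnum
  linear_combination (∏ j ∈ range (β + 1), sn N ((A : ℂ) - n1 + j)) * ((D N A : ℝ) : ℂ) * hW +
    (-1) ^ (A + 1) * bc N n2 A * bc N n1 C * (2 * Complex.sin (Real.pi * n1)) * hnum

/-- third case at a generic point -/
lemma wr3_gen (hPF : S_PF) {z : ℂ} (hz : ∀ k : ℤ, z ≠ k) (A β C : ℕ) (h : A + β + C + 2 = N) :
    sn N ((N - 1 + z) / 2 - C) * sn N ((N - 1 - z) / 2 - C) * Wk N z A (β + 1) C =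
      sn N (C + 1) ^ 2 * Wk N z A β (C + 1) := by
  have hN : 0 < N := by omega
  have hNc : (N : ℂ) ≠ 0 := by exact_mod_cast hN.ne'
  have c1 := wr_closed (N := N) hPF hz A (β + 1) C (by omega)
  have c2 := wr_closed (N := N) hPF hz A β (C + 1) (by omega)
  obtain ⟨n1, h1⟩ : ∃ n : ℂ, n = (N - 1 + z) / 2 := ⟨_, rfl⟩
  obtain ⟨n2, h2⟩ : ∃ n : ℂ, n = (N - 1 - z) / 2 := ⟨_, rfl⟩
  have hn : n1 + n2 = N - 1 := by rw [h1, h2]; ring
  have hgen : ∀ j : ℤ, sn N (n1 - j) ≠ 0 := fun j => by rw [h1]; exact sn_gen hN hz j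
  rw [← h1, ← h2] at c1 c2 ⊢
  have hprod : (∏ j ∈ range (β + 1), sn N ((A : ℂ) - n1 + j)) ≠ 0 := by
    refine prod_ne_zero_iff.2 fun j _ => ?_
    have e : (A : ℂ) - n1 + j = -(n1 - ((A + j : ℕ) : ℤ)) := by push_cast; ring
    rw [e, sn_neg]
    exact neg_ne_zero.2 (hgen _)
  rw [prod_range_succ] at c1
  have hDA := D_ne (N := N) A (by omega)
  have r1 := bc_succ (N := N) n1 C (by omega)
  have r2 := D_succ (N := N) (A + β)
  have hA : (A : ℂ) + β + C + 2 = N := by rw [← h]; push_cast; ring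
  have e1 : sn N (((A + β : ℕ) : ℂ) + 1) = sn N ((C : ℂ) + 1) := by
    rw [← sn_refl hN ((C : ℂ) + 1)]
    congr 1
    push_cast
    linear_combination hA
  have e2 : sn N ((A : ℂ) - n1 + ((β + 1 : ℕ) : ℂ)) = sn N (n2 - C) := by
    congr 1
    push_cast
    linear_combination hA - hn
  rw [e1] at r2
  rw [e2] at c1
  rw [show A + (β + 1) = A + β + 1 by ring, r2] at c1
  obtain ⟨Pr, hPr⟩ : ∃ P, P = ∏ j ∈ range (β + 1), sn N ((A : ℂ) - n1 + j) := ⟨_, rfl⟩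
  rw [← hPr] at c1 c2 hprod
  apply mul_right_cancel₀ (mul_ne_zero hprod (mul_ne_zero hNc hDA))
  linear_combination sn N (n1 - C) * c1 - sn N ((C : ℂ) + 1) ^ 2 * c2 -
    ((-1) ^ (A + 1) * bc N n2 A * (2 * Complex.sin (Real.pi * n1)) * ((D N (A + β) : ℝ) : ℂ) *
      sn N ((C : ℂ) + 1)) * r1

lemma wr3 (hPF : S_PF) (z : ℂ) (A β C : ℕ) (h : A + β + C + 2 = N) :
    sn N ((N - 1 + z) / 2 - C) * sn N ((N - 1 - z) / 2 - C) * Wk N z A (β + 1) C =
      sn N (C + 1) ^ 2 * Wk N z A β (C + 1) := by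
  have hcont1 : Continuous fun z : ℂ => sn N ((N - 1 + z) / 2 - C) * sn N ((N - 1 - z) / 2 - C) *
      Wk N z A (β + 1) C := by
    refine Continuous.mul ?_ (Wk_cont A (β + 1) C)
    unfold sn
    fun_prop
  have hcont2 : Continuous fun z : ℂ => sn N (C + 1) ^ 2 * Wk N z A β (C + 1) :=
    continuous_const.mul (Wk_cont A β (C + 1))
  have h1 := Continuous.ext_on gen_dense hcont1 hcont2 (fun w hw => wr3_gen hPF hw A β C h)
  exact congrFun h1 z

theorem task_WR : S_WR := by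
  intro hPF N hN z A β C
  exact ⟨fun h => wr1 A β C h, fun h => wr2 A C h, fun h => wr3 hPF z A β C h, fun h => wr4 A C h⟩

end Pool.Agent.Q210.KN
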